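import Pool.Agent.TH446.HN.Crit

/-! Counterexamples to Hadwiger's conjecture, and to its off-by-one form, in which every vertex has
at most `D` non-neighbours, contain counterexamples with `O(D ^ (4 / 3))` vertices. -/

set_option autoImplicit false

namespace Pool.Agent.TH446.HN.Crit

open Finset Pool.Agent.W212.EFF TH481.DM

open Classical in
/-- Smallest counterexamples to the off-by-one form. -/
theorem min_offbyone34 {V : Type} [Fintype V] (G : SimpleGraph V) (k : ℕ)
    (h1 : ¬ G.Colorable k) (h2 : ¬ HasCliqueMinor G k)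
    (hmin : ∀ U : Set V, U ≠ Set.univ → ∀ j, ¬ (G.induce U).Colorable j →
      HasCliqueMinor (G.induce U) j) (D : ℕ)
    (hD : ∀ x, Pool.Agent.W292.RG.ndeg G x ≤ D) :
    Fintype.card V ^ 3 < 3200000 * D ^ 4 := by
  have hHadj : ∀ u v, Gᶜ.Adj u v ↔ u ≠ v ∧ ¬ G.Adj u v := fun u v => by
    rw [SimpleGraph.compl_adj]
  have hnbr := exists_nonnbr G Gᶜ hHadj 0 k (by omega) h1 h2 hmin
  have hcrit := crit_of_min G 0 k (by omega) h1 h2 hmin
  by_cases hbig : ∃ a, Fintype.card V < 4 * (comp Gᶜ a).card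
  · obtain ⟨a, ha⟩ := hbig
    have h3 := comp_small G Gᶜ hHadj 0 k (by omega) h1 h2 hmin a D hD
    have h5 : Fintype.card V ^ 3 ≤ (4 * (comp Gᶜ a).card) ^ 3 := Nat.pow_le_pow_left ha.le 3
    calc Fintype.card V ^ 3 ≤ (4 * (comp Gᶜ a).card) ^ 3 := h5
      _ = 64 * (comp Gᶜ a).card ^ 3 := by ring
      _ < 64 * (50000 * D ^ 4) := Nat.mul_lt_mul_of_pos_left h3 (by norm_num)
      _ = 3200000 * D ^ 4 := by ring
  · exfalso
    push Not at hbig
    obtain ⟨S, hS1, hS2, hS3⟩ := reps G Gᶜ hHadj hcrit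
    have hrl := rest_large Gᶜ S hS1 univ (fun v _ => hnbr v)
    rw [Finset.card_univ] at hrl
    let eqv := Fintype.equivFin (Gᶜ).ConnectedComponent
    have hminor : HasCliqueMinor G (Y (Ind G) (univ : Finset V)) := by
      refine cross_pairs G (ι := Fin (Fintype.card (Gᶜ).ConnectedComponent))
        (fun v => eqv ((Gᶜ).connectedComponentMk v)) ?_ S ?_ ?_ _ ?_
      · intro u v huv
        by_contra hcon
        apply huv
        have hne : u ≠ v := by rintro rfl; exact huv rfl
        rw [SimpleGraph.ConnectedComponent.eq.2 ((hHadj u v).2 ⟨hne, hcon⟩).reachable]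
      · intro u hu v hv huv
        have := eqv.injective huv
        exact hS1 u hu v hv (SimpleGraph.ConnectedComponent.eq.1 this)
      · intro a
        rcases Finset.eq_empty_or_nonempty
          ((Sᶜ).filter (fun v => eqv ((Gᶜ).connectedComponentMk v) = a)) with he | ⟨v0, hv0⟩
        · rw [he]; simp
        · have h3 : ((Sᶜ).filter (fun v => eqv ((Gᶜ).connectedComponentMk v) = a)).card ≤
              (comp Gᶜ v0).card := by
            apply card_le_card
            intro v hv
            rw [mem_filter] at hv hv0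
            simp only [comp, mem_filter, mem_univ, true_and]
            have := eqv.injective (hv0.2.trans hv.2.symm)
            exact SimpleGraph.ConnectedComponent.eq.1 this
          have h4 := hbig v0
          omega
      · omega
    exact h2 (minor_mono G _ _ hminor (lt_Y_univ G k h1).le)

/-- For `e = 1` Hadwiger's conjecture for `G`, for `e = 0` its off-by-one form. -/
def Had {V : Type} (G : SimpleGraph V) (e : ℕ) : Prop :=
  ∀ j : ℕ, ¬ G.Colorable j → HasCliqueMinor G (j + e)

theorem minor_iso {V W : Type} (G : SimpleGraph V) (G' : SimpleGraph W) (φ : G ≃g G') (k : ℕ)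
    (h : HasCliqueMinor G k) : HasCliqueMinor G' k := by
  obtain ⟨f, hc, hd, ha⟩ := h
  refine ⟨fun i => φ '' (f i), ?_, ?_, ?_⟩
  · intro i
    let ψ : (G.induce (f i)) →g (G'.induce (φ '' (f i))) :=
      { toFun := fun x => ⟨φ x.1, ⟨x.1, x.2, rfl⟩⟩
        map_rel' := fun {a b} h => by
          have h' : G.Adj a.1 b.1 := by simpa using h
          have h'' : G'.Adj (φ a.1) (φ b.1) := φ.map_adj_iff.2 h'
          simpa using h'' }
    refine (hc i).map ψ ?_
    rintro ⟨_, x, hx, rfl⟩
    exact ⟨⟨x, hx⟩, rfl⟩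
  · intro i j hij
    rw [Set.disjoint_left]
    rintro _ ⟨x, hx, rfl⟩ ⟨y, hy, hxy⟩
    have : y = x := φ.injective hxy
    rw [this] at hy
    exact (Set.disjoint_left.1 (hd i j hij)) hx hy
  · intro i j hij
    obtain ⟨u, hu, v, hv, huv⟩ := ha i j hij
    exact ⟨φ u, ⟨u, hu, rfl⟩, φ v, ⟨v, hv, rfl⟩, φ.map_adj_iff.2 huv⟩

theorem had_iso {V W : Type} (G : SimpleGraph V) (G' : SimpleGraph W) (φ : G ≃g G') (e : ℕ)
    (h : Had G e) : Had G' e := by
  intro j hj
  refine minor_iso G G' φ _ (h j ?_)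
  intro hc
  exact hj (SimpleGraph.Colorable.of_hom φ.symm.toHom hc)

/-- Induced subgraphs of induced subgraphs. -/
def indIso {V : Type} (G : SimpleGraph V) (U : Set V) (X : Set U) :
    G.induce (Subtype.val '' X) ≃g (G.induce U).induce X where
  toFun y := ⟨⟨y.1, by obtain ⟨x, hx, h⟩ := y.2; rw [← h]; exact x.2⟩, by
    obtain ⟨x, hx, h⟩ := y.2
    have : x = ⟨y.1, by rw [← h]; exact x.2⟩ := Subtype.ext h
    rw [← this]; exact hx⟩
  invFun x := ⟨x.1.1, ⟨x.1, x.2, rfl⟩⟩
  left_inv _ := rfl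
  right_inv _ := rfl
  map_rel_iff' := by
    intro a b
    simp

theorem localize {V : Type} [Fintype V] (G : SimpleGraph V) (e C D : ℕ)
    (hD : ∀ x, Pool.Agent.W292.RG.ndeg G x ≤ D)
    (hmain : ∀ (W : Type) [Fintype W] (G' : SimpleGraph W),
      (∀ x, Pool.Agent.W292.RG.ndeg G' x ≤ D) → ¬ Had G' e →
      (∀ U : Set W, U ≠ Set.univ → Had (G'.induce U) e) → Fintype.card W ^ 3 < C * D ^ 4)
    (h : ¬ Had G e) : ∃ U : Set V, ¬ Had (G.induce U) e ∧ U.ncard ^ 3 < C * D ^ 4 := by
  classical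
  have key : ∀ n : ℕ, ∀ U : Set V, U.ncard = n → ¬ Had (G.induce U) e →
      ∃ U' : Set V, ¬ Had (G.induce U') e ∧ U'.ncard ^ 3 < C * D ^ 4 := by
    intro n
    induction n using Nat.strong_induction_on with
    | _ n ih =>
      intro U hU hnot
      by_cases hex : ∃ X : Set U, X ≠ Set.univ ∧ ¬ Had ((G.induce U).induce X) e
      · obtain ⟨X, hX, hXn⟩ := hex
        have hlt : (Subtype.val '' X : Set V).ncard < n := by
          rw [← hU]
          apply Set.ncard_lt_ncard _ (Set.toFinite _)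
          rw [Set.ssubset_iff_subset_ne]
          refine ⟨?_, ?_⟩
          · rintro _ ⟨x, _, rfl⟩; exact x.2
          · intro heq
            apply hX
            ext x
            simp only [Set.mem_univ, iff_true]
            have : x.1 ∈ Subtype.val '' X := by rw [heq]; exact x.2
            obtain ⟨y, hy, hyx⟩ := this
            rwa [Subtype.ext hyx] at hy
        refine ih _ hlt (Subtype.val '' X) rfl ?_
        intro hh
        exact hXn (had_iso _ _ (indIso G U X) e hh)
      · push Not at hex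
        refine ⟨U, hnot, ?_⟩
        have := hmain U (G.induce U) (fun x => (ndeg_ind G U x).trans (hD x.1)) hnot hex
        rwa [← Nat.card_eq_fintype_card, Nat.card_coe_set_eq] at this
  refine key _ Set.univ rfl ?_
  intro hh
  exact h (had_iso _ _ (SimpleGraph.induceUnivIso G) e hh)

theorem local_hadwiger {V : Type} [Fintype V] (G : SimpleGraph V) (D : ℕ)
    (hD : ∀ x, Pool.Agent.W292.RG.ndeg G x ≤ D) (h : ¬ Had G 1) :
    ∃ U : Set V, ¬ Had (G.induce U) 1 ∧ U.ncard ^ 3 < 50000 * D ^ 4 := by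
  refine localize G 1 50000 D hD ?_ h
  intro W _ G' hD' hG' hmin
  unfold Had at hG'
  push Not at hG'
  obtain ⟨k, h1, h2⟩ := hG'
  exact min_hadwiger34 G' k h1 h2 (fun U hU j hj => hmin U hU j hj) D hD'

theorem local_offbyone {V : Type} [Fintype V] (G : SimpleGraph V) (D : ℕ)
    (hD : ∀ x, Pool.Agent.W292.RG.ndeg G x ≤ D) (h : ¬ Had G 0) :
    ∃ U : Set V, ¬ Had (G.induce U) 0 ∧ U.ncard ^ 3 < 3200000 * D ^ 4 := by
  refine localize G 0 3200000 D hD ?_ h
  intro W _ G' hD' hG' hmin
  unfold Had at hG'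
  push Not at hG'
  obtain ⟨k, h1, h2⟩ := hG'
  exact min_offbyone34 G' k h1 h2 (fun U hU j hj => hmin U hU j hj) D hD'

end Pool.Agent.TH446.HN.Crit
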