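import Pool.Agent.TH446.HN.Sharp
import Pool.Agent.H331R3.HCHalf

/-! Graphs with about `n ^ (3 / 4)` non-neighbours per vertex and no `K_{⌈n/2⌉}` minor. -/

set_option autoImplicit false

namespace Pool.Agent.TH446.HN.Sharp

open Finset H331HC

/-- the graph of a sample point -/
def gr (n q : ℕ) (ω : Om n q) : SimpleGraph (Fin n) where
  Adj u v := u ≠ v ∧ ω s(u, v) ≠ 0
  symm := ⟨fun u v h => ⟨h.1.symm, by rw [Sym2.eq_swap]; exact h.2⟩⟩
  loopless := ⟨fun _ h => h.1 rfl⟩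

theorem nonnbr_lt (n q k : ℕ) (ω : Om n q)
    (h : ∀ (v : Fin n) (T : Finset (Fin n)), v ∉ T → T.card = k → ∃ u ∈ T, ω s(v, u) ≠ 0)
    (v : Fin n) : {y | v ≠ y ∧ ¬ (gr n q ω).Adj v y}.ncard < k := by
  classical
  by_contra hcon
  push Not at hcon
  rw [Set.ncard_eq_toFinset_card'] at hcon
  obtain ⟨T, hT, hTk⟩ := Finset.exists_subset_card_eq hcon
  obtain ⟨u, hu, hne⟩ := h v T (by
    intro hv
    have := hT hv
    simp at this) hTk
  have := hT hu
  rw [Set.mem_toFinset] at this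
  exact this.2 ⟨this.1, hne⟩

theorem no_minor (n q t : ℕ) (ht : 4 * t ≤ n) (ω : Om n q)
    (h : ∀ c : Fam n t, Dis n t c → ∃ p ∈ Ix t, ∀ e ∈ Bl n t c p, ω e = 0) :
    ¬ KMinor (gr n q ω) ((n + 1) / 2) := by
  classical
  obtain ⟨m, hm⟩ : ∃ m, m = (n + 1) / 2 := ⟨_, rfl⟩
  rw [← hm]
  rintro ⟨f, h1, h2, h3⟩
  set F : Fin m → Finset (Fin n) := fun i => (f i).toFinset with hF
  have hFmem : ∀ i a, a ∈ F i ↔ a ∈ f i := by
    intro i a
    simp [hF]
  have hne : ∀ i, 1 ≤ (F i).card := by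
    intro i
    have := (h1 i).nonempty
    obtain ⟨a, ha⟩ := this
    exact card_pos.2 ⟨a, (hFmem i a).2 ha⟩
  have hFd : ∀ i j, i ≠ j → Disjoint (F i) (F j) := by
    intro i j hij
    rw [Finset.disjoint_left]
    intro a ha hb
    exact Set.disjoint_left.1 (h2 i j hij) ((hFmem i a).1 ha) ((hFmem j a).1 hb)
  have hsum : ∑ i, (F i).card ≤ n := by
    rw [← card_biUnion (fun i _ j _ hij => hFd i j hij)]
    refine (card_le_univ _).trans ?_
    rw [Fintype.card_fin]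
  set S : Finset (Fin m) := univ.filter (fun i => (F i).card ≤ 2) with hS
  have hsum2 : m + 2 * (m - S.card) ≤ ∑ i, (F i).card := by
    have e1 : ∑ i : Fin m, (1 + if i ∈ S then 0 else 2) ≤ ∑ i, (F i).card := by
      refine sum_le_sum fun i _ => ?_
      by_cases hi : i ∈ S
      · rw [if_pos hi]; exact hne i
      · rw [if_neg hi]
        rw [hS, mem_filter] at hi
        have : ¬ (F i).card ≤ 2 := fun h => hi ⟨mem_univ _, h⟩
        omega
    have e2 : ∑ i : Fin m, (1 + if i ∈ S then 0 else 2) = m + 2 * (m - S.card) := by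
      rw [sum_add_distrib, sum_const, card_univ, Fintype.card_fin, smul_eq_mul, mul_one]
      congr 1
      rw [sum_ite, sum_const_zero, zero_add, sum_const, smul_eq_mul, mul_comm]
      congr 1
      have : univ.filter (fun i => i ∉ S) = univ \ S := by
        ext i; simp
      rw [this, card_sdiff_of_subset (subset_univ _), card_univ, Fintype.card_fin]
    rw [← e2]
    exact e1
  have hSt : t ≤ S.card := by omega
  obtain ⟨T, hTS, hTc⟩ := Finset.exists_subset_card_eq hSt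
  have e : Fin t ≃ T := by
    have : Fintype.card (Fin t) = Fintype.card T := by
      rw [Fintype.card_fin, Fintype.card_coe, hTc]
    exact Fintype.equivOfCardEq this
  have hpair : ∀ i : Fin t, ∃ c : Bool → Fin n, ∀ a, a ∈ F (e i).1 ↔ ∃ u, c u = a := by
    intro i
    have hi := hTS (e i).2
    rw [hS, mem_filter] at hi
    have h1' := hne (e i).1
    have h2' := hi.2
    have : (F (e i).1).card = 1 ∨ (F (e i).1).card = 2 := by omega
    rcases this with h' | h'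
    · obtain ⟨a, ha⟩ := card_eq_one.1 h'
      refine ⟨fun _ => a, fun b => ?_⟩
      rw [ha, mem_singleton]
      exact ⟨fun h => ⟨true, h.symm⟩, fun ⟨_, h⟩ => h.symm⟩
    · obtain ⟨a, b, _, ha⟩ := card_eq_two.1 h'
      refine ⟨fun u => if u then a else b, fun x => ?_⟩
      rw [ha, mem_insert, mem_singleton]
      constructor
      · rintro (rfl | rfl)
        · exact ⟨true, by simp⟩
        · exact ⟨false, by simp⟩
      · rintro ⟨u, hu⟩
        cases u
        · right; simpa using hu.symm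
        · left; simpa using hu.symm
  choose c hc using hpair
  have hcd : Dis n t c := by
    intro i j hij u v huv
    have hij' : (e i).1 ≠ (e j).1 := by
      intro h'
      exact hij (e.injective (Subtype.ext h'))
    have := Finset.disjoint_left.1 (hFd _ _ hij') ((hc i (c i u)).2 ⟨u, rfl⟩)
    exact this ((hc j (c i u)).2 ⟨v, huv.symm⟩)
  obtain ⟨p, hp, hz⟩ := h c hcd
  rw [Ix, mem_filter] at hp
  have hne' : (e p.1).1 ≠ (e p.2).1 := by
    intro h'
    exact hp.2.ne (e.injective (Subtype.ext h'))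
  obtain ⟨a, ha, b, hb, hab⟩ := h3 _ _ hne'
  obtain ⟨u, rfl⟩ := (hc p.1 a).1 ((hFmem _ _).2 ha)
  obtain ⟨v, rfl⟩ := (hc p.2 b).1 ((hFmem _ _).2 hb)
  refine hab.2 (hz _ ?_)
  rw [Bl, mem_image]
  exact ⟨(u, v), mem_univ _, rfl⟩

theorem fact_bound (k : ℕ) (y : ℝ) (hy : 0 ≤ y) (hk : 6 * y ≤ k) :
    y ^ k / (Nat.factorial k : ℝ) ≤ (1 / 2) ^ k := by
  have hfac : (0 : ℝ) < (Nat.factorial k : ℝ) := by exact_mod_cast Nat.factorial_pos k
  have h1 : (k : ℝ) ^ k / (Nat.factorial k : ℝ) ≤ Real.exp k :=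
    Real.pow_div_factorial_le_exp (k : ℝ) (by positivity) k
  have h2 : Real.exp k ≤ 3 ^ k := by
    rw [← Real.exp_one_pow]
    exact pow_le_pow_left₀ (Real.exp_pos 1).le (by
      have := Real.exp_one_lt_d9
      linarith) k
  have h3 : (k : ℝ) ^ k ≤ 3 ^ k * (Nat.factorial k : ℝ) := by
    rw [div_le_iff₀ hfac] at h1
    exact h1.trans (mul_le_mul_of_nonneg_right h2 hfac.le)
  rw [div_le_iff₀ hfac]
  have h4 : (6 * y) ^ k ≤ (k : ℝ) ^ k := pow_le_pow_left₀ (by positivity) hk k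
  have h5 : (6 : ℝ) ^ k = 3 ^ k * 2 ^ k := by rw [← mul_pow]; norm_num
  have h6 : (6 * y) ^ k = 3 ^ k * (2 ^ k * y ^ k) := by
    rw [mul_pow, h5]; ring
  have h7 : (2 : ℝ) ^ k * y ^ k ≤ (Nat.factorial k : ℝ) := by
    have h8 : (3 : ℝ) ^ k * (2 ^ k * y ^ k) ≤ 3 ^ k * (Nat.factorial k : ℝ) := by
      rw [← h6]
      exact h4.trans h3
    exact le_of_mul_le_mul_left h8 (by positivity)
  have h9 : ((1 : ℝ) / 2) ^ k * 2 ^ k = 1 := by rw [← mul_pow]; norm_num
  calc y ^ k = ((1 : ℝ) / 2) ^ k * 2 ^ k * y ^ k := by rw [h9, one_mul]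
    _ = ((1 : ℝ) / 2) ^ k * (2 ^ k * y ^ k) := by ring
    _ ≤ (1 / 2) ^ k * (Nat.factorial k : ℝ) := mul_le_mul_of_nonneg_left h7 (by positivity)

/-- the estimate of the two error probabilities -/
theorem estimate (n q t k : ℕ) (hn : 1000 ≤ n)
    (hQ : 40 * Real.log n * ((q : ℝ) + 1) ^ 4 ≤ n)
    (ht1 : n ≤ 4 * t + 3) (hk1 : 6 * (n : ℝ) / ((q : ℝ) + 1) ≤ k) :
    (n : ℝ) * n.choose k / ((q : ℝ) + 1) ^ k +
      ((n : ℝ) ^ 2) ^ t * (1 - 1 / ((q : ℝ) + 1) ^ 4) ^ (t.choose 2) < 1 := by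
  have hnR : (1000 : ℝ) ≤ n := by exact_mod_cast hn
  have hn0 : (0 : ℝ) < n := by linarith
  set L := Real.log n with hL
  have hL1 : 1 ≤ L := by
    rw [hL, Real.le_log_iff_exp_le hn0]
    have := Real.exp_one_lt_d9
    linarith
  set Q : ℝ := (q : ℝ) + 1 with hQdef
  have hQ1 : 1 ≤ Q := by
    have : (0 : ℝ) ≤ q := by positivity
    linarith
  have hQ0 : 0 < Q := by linarith
  have hQ4 : 1 ≤ Q ^ 4 := one_le_pow₀ hQ1
  -- Q ≤ sqrt n
  have hQn : Q ^ 2 ≤ n := by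
    have h1 : Q ^ 2 ≤ Q ^ 4 := pow_le_pow_right₀ hQ1 (by norm_num)
    have h2 : Q ^ 4 ≤ 40 * L * Q ^ 4 := by nlinarith
    linarith
  have hfirst : (n : ℝ) * n.choose k / Q ^ k ≤ 1 / 4 := by
    have h1 : (n.choose k : ℝ) ≤ (n : ℝ) ^ k / (Nat.factorial k : ℝ) := Nat.choose_le_pow_div k n
    have h2 := fact_bound k ((n : ℝ) / Q) (by positivity) (by
      rw [← mul_div_assoc]; exact hk1)
    have h3 : (n : ℝ) * n.choose k / Q ^ k ≤ n * (1 / 2) ^ k := by
      have h4 : (n.choose k : ℝ) / Q ^ k ≤ (1 / 2) ^ k := by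
        refine le_trans ?_ h2
        rw [div_pow]
        calc (n.choose k : ℝ) / Q ^ k ≤ ((n : ℝ) ^ k / (Nat.factorial k : ℝ)) / Q ^ k := by
              gcongr
          _ = (n : ℝ) ^ k / Q ^ k / (Nat.factorial k : ℝ) := by
              rw [div_div, div_div, mul_comm]
      calc (n : ℝ) * n.choose k / Q ^ k = n * (n.choose k / Q ^ k) := by ring
        _ ≤ n * (1 / 2) ^ k := mul_le_mul_of_nonneg_left h4 hn0.le
    refine h3.trans ?_
    -- k^2 ≥ 36 n
    have h5 : 36 * (n : ℝ) ≤ (k : ℝ) ^ 2 := by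
      have h6 : 6 * (n : ℝ) ≤ k * Q := by
        rwa [div_le_iff₀ hQ0] at hk1
      have h7 : (6 * (n : ℝ)) ^ 2 ≤ (k * Q) ^ 2 := pow_le_pow_left₀ (by positivity) h6 2
      have h8 : (k * Q) ^ 2 ≤ (k : ℝ) ^ 2 * n := by
        rw [mul_pow]
        exact mul_le_mul_of_nonneg_left hQn (by positivity)
      have h9 : (36 * (n : ℝ)) * n ≤ (k : ℝ) ^ 2 * n := by
        calc (36 * (n : ℝ)) * n = (6 * (n : ℝ)) ^ 2 := by ring
          _ ≤ _ := h7.trans h8
      exact le_of_mul_le_mul_right h9 hn0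
    have h10 : 4 * (n : ℝ) ≤ 2 ^ k := by
      have h11 : (2 : ℝ) ^ k = Real.exp (k * Real.log 2) := by
        rw [mul_comm, Real.exp_mul, Real.exp_log (by norm_num), Real.rpow_natCast]
      have h12 : 0 ≤ (k : ℝ) * Real.log 2 := by
        have := Real.log_pos (show (1 : ℝ) < 2 by norm_num)
        positivity
      have h13 := Real.quadratic_le_exp_of_nonneg h12
      have h14 := Real.log_two_gt_d9
      have h15 : (0.6931471803 : ℝ) ^ 2 ≤ Real.log 2 ^ 2 := pow_le_pow_left₀ (by norm_num) h14.le 2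
      have h16 : ((k : ℝ) * Real.log 2) ^ 2 = (k : ℝ) ^ 2 * Real.log 2 ^ 2 := by ring
      have h17 : (0.48 : ℝ) * (k : ℝ) ^ 2 ≤ ((k : ℝ) * Real.log 2) ^ 2 := by
        rw [h16]
        nlinarith [sq_nonneg (k : ℝ)]
      rw [h11]
      linarith
    have h18 : ((1 : ℝ) / 2) ^ k * 2 ^ k = 1 := by rw [← mul_pow]; norm_num
    have h19 : (0 : ℝ) < (1 / 2) ^ k := by positivity
    nlinarith
  have hsecond : ((n : ℝ) ^ 2) ^ t * (1 - 1 / Q ^ 4) ^ (t.choose 2) ≤ 1 / 4 := by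
    have g1 : (0 : ℝ) ≤ 1 - 1 / Q ^ 4 := by
      have : 1 / Q ^ 4 ≤ 1 := by
        rw [div_le_one (by positivity)]; exact hQ4
      linarith
    have g2 : 1 - 1 / Q ^ 4 ≤ Real.exp (-(1 / Q ^ 4)) := Real.one_sub_le_exp_neg _
    have g3 : 40 * L / n ≤ 1 / Q ^ 4 := by
      rw [div_le_div_iff₀ hn0 (by positivity)]
      linarith
    have g4 : (1 - 1 / Q ^ 4) ^ (t.choose 2) ≤ Real.exp (-(40 * L / n) * (t.choose 2 : ℝ)) := by
      calc (1 - 1 / Q ^ 4) ^ (t.choose 2) ≤ (Real.exp (-(40 * L / n))) ^ (t.choose 2) := by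
            refine pow_le_pow_left₀ g1 (g2.trans ?_) _
            exact Real.exp_le_exp.2 (by linarith)
        _ = Real.exp (-(40 * L / n) * (t.choose 2 : ℝ)) := by
            rw [← Real.exp_nat_mul, mul_comm]
    have g5 : ((n : ℝ) ^ 2) ^ t = Real.exp (2 * t * L) := by
      rw [← pow_mul, hL, mul_comm (2 * (t : ℝ)), ← Real.rpow_def_of_pos hn0]
      rw [← Real.rpow_natCast]
      push_cast
      rfl
    have ht : (n : ℝ) ≤ 4 * t + 3 := by exact_mod_cast ht1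
    have g6 : (t.choose 2 : ℝ) = t * (t - 1) / 2 := Nat.cast_choose_two ℝ t
    have ht0 : (1 : ℝ) ≤ t := by linarith
    have g7 : (n : ℝ) / 5 ≤ (t : ℝ) - 1 := by linarith
    have g8 : 4 * t * L ≤ (40 * L / n) * (t.choose 2 : ℝ) := by
      rw [g6, div_mul_eq_mul_div, le_div_iff₀ hn0]
      have g9 : 0 ≤ t * L := by positivity
      nlinarith
    have g10 : Real.exp (-(40 * L / n) * (t.choose 2 : ℝ)) ≤ Real.exp (-(4 * t * L)) :=
      Real.exp_le_exp.2 (by linarith)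
    rw [g5]
    calc Real.exp (2 * t * L) * (1 - 1 / Q ^ 4) ^ (t.choose 2) ≤
        Real.exp (2 * t * L) * Real.exp (-(4 * t * L)) :=
          mul_le_mul_of_nonneg_left (g4.trans g10) (Real.exp_pos _).le
      _ = Real.exp (-(2 * t * L)) := by rw [← Real.exp_add]; congr 1; ring
      _ ≤ Real.exp (-2) := Real.exp_le_exp.2 (by nlinarith)
      _ ≤ 1 / 4 := by
          rw [Real.exp_neg, inv_eq_one_div]
          refine one_div_le_one_div_of_le (by norm_num) ?_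
          have : Real.exp 2 = Real.exp 1 ^ 2 := by
            rw [← Real.exp_nat_mul]; norm_num
          rw [this]
          have := Real.exp_one_gt_d9
          nlinarith
  linarith

/-- Sharpness of the exponent `3 / 4`. -/
theorem sharp (n : ℕ) (hn : 3 ≤ n) : ∃ G : SimpleGraph (Fin n),
    (∀ x, ({y | x ≠ y ∧ ¬ G.Adj x y}.ncard : ℝ) ≤
      31 * (n : ℝ) ^ ((3 : ℝ) / 4) * Real.log n ^ ((1 : ℝ) / 4)) ∧
    ¬ KMinor G ((n + 1) / 2) := by
  have hn0 : (0 : ℝ) < n := by exact_mod_cast (show 0 < n by omega)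
  have hn3 : (3 : ℝ) ≤ n := by exact_mod_cast hn
  have hL1 : 1 ≤ Real.log n := by
    rw [Real.le_log_iff_exp_le hn0]
    have := Real.exp_one_lt_d9
    linarith
  rcases lt_or_ge n 1000 with hsm | hbig
  · refine ⟨⊥, fun x => ?_, ?_⟩
    · have h1 : ({y | x ≠ y ∧ ¬ (⊥ : SimpleGraph (Fin n)).Adj x y}.ncard : ℝ) ≤ n := by
        have : {y | x ≠ y ∧ ¬ (⊥ : SimpleGraph (Fin n)).Adj x y}.ncard ≤ n := by
          refine (Set.ncard_le_ncard (Set.subset_univ _)).trans ?_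
          rw [Set.ncard_univ, Nat.card_eq_fintype_card, Fintype.card_fin]
        exact_mod_cast this
      have h2 : (n : ℝ) = (n : ℝ) ^ ((1 : ℝ) / 4) * (n : ℝ) ^ ((3 : ℝ) / 4) := by
        rw [← Real.rpow_add hn0]; norm_num
      have h3 : (n : ℝ) ^ ((1 : ℝ) / 4) ≤ 31 := by
        have : (n : ℝ) ≤ 31 ^ 4 := by
          have : (n : ℝ) < 1000 := by exact_mod_cast hsm
          norm_num
          linarith
        calc (n : ℝ) ^ ((1 : ℝ) / 4) ≤ ((31 : ℝ) ^ 4) ^ ((1 : ℝ) / 4) :=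
              Real.rpow_le_rpow hn0.le this (by norm_num)
          _ = 31 := by
              rw [← Real.rpow_natCast, ← Real.rpow_mul (by norm_num)]
              norm_num
      have h4 : 1 ≤ Real.log n ^ ((1 : ℝ) / 4) := Real.one_le_rpow hL1 (by norm_num)
      have h5 : 0 ≤ (n : ℝ) ^ ((3 : ℝ) / 4) := Real.rpow_nonneg hn0.le _
      calc ({y | x ≠ y ∧ ¬ (⊥ : SimpleGraph (Fin n)).Adj x y}.ncard : ℝ) ≤ n := h1
        _ = (n : ℝ) ^ ((1 : ℝ) / 4) * (n : ℝ) ^ ((3 : ℝ) / 4) := h2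
        _ ≤ 31 * (n : ℝ) ^ ((3 : ℝ) / 4) := mul_le_mul_of_nonneg_right h3 h5
        _ = 31 * (n : ℝ) ^ ((3 : ℝ) / 4) * 1 := by ring
        _ ≤ _ := mul_le_mul_of_nonneg_left h4 (by positivity)
    · rintro ⟨f, h1, h2, h3⟩
      have hm : 2 ≤ (n + 1) / 2 := by omega
      obtain ⟨u, _, v, _, h⟩ := h3 ⟨0, by omega⟩ ⟨1, by omega⟩ (by simp)
      simp at h
  · have hnR : (1000 : ℝ) ≤ n := by exact_mod_cast hbig
    set L := Real.log n with hL
    set x : ℝ := ((n : ℝ) / (40 * L)) ^ ((1 : ℝ) / 4) with hx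
    have h40 : 40 * L ≤ n := by
      have h1 : Real.log n = 4 * Real.log ((n : ℝ) ^ ((1 : ℝ) / 4)) := by
        rw [Real.log_rpow hn0]; ring
      have h2 : 0 < (n : ℝ) ^ ((1 : ℝ) / 4) := Real.rpow_pos_of_pos hn0 _
      have h3 := Real.log_le_sub_one_of_pos h2
      have h4 : (n : ℝ) = ((n : ℝ) ^ ((1 : ℝ) / 4)) ^ 4 := by
        rw [← Real.rpow_natCast, ← Real.rpow_mul hn0.le]
        norm_num
      have h5 : (5.6 : ℝ) ≤ (n : ℝ) ^ ((1 : ℝ) / 4) := by
        by_contra hcon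
        push Not at hcon
        have := pow_lt_pow_left₀ hcon h2.le (show (4 : ℕ) ≠ 0 by norm_num)
        rw [← h4] at this
        norm_num at this
        linarith
      set z := (n : ℝ) ^ ((1 : ℝ) / 4) with hz
      have h6 : 160 * z ≤ z ^ 4 := by
        have : (160 : ℝ) ≤ z ^ 3 := by
          calc (160 : ℝ) ≤ 5.6 ^ 3 := by norm_num
            _ ≤ z ^ 3 := pow_le_pow_left₀ (by norm_num) h5 3
        calc 160 * z ≤ z ^ 3 * z := mul_le_mul_of_nonneg_right this h2.le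
          _ = z ^ 4 := by ring
      calc 40 * L ≤ 160 * z := by rw [hL, h1]; linarith
        _ ≤ z ^ 4 := h6
        _ = n := h4.symm
    have hx4 : x ^ 4 = (n : ℝ) / (40 * L) := by
      rw [hx, ← Real.rpow_natCast, ← Real.rpow_mul (by positivity)]
      norm_num
    have hx1 : 1 ≤ x := by
      rw [hx]
      refine Real.one_le_rpow ?_ (by norm_num)
      rw [le_div_iff₀ (by positivity)]
      linarith
    set Qn : ℕ := ⌊x⌋₊ with hQn
    have hQ1 : 1 ≤ Qn := by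
      rw [hQn, Nat.one_le_floor_iff]
      exact hx1
    have hQx : (Qn : ℝ) ≤ x := Nat.floor_le (by linarith)
    have hQx2 : x < Qn + 1 := Nat.lt_floor_add_one x
    obtain ⟨q, hq⟩ : ∃ q, Qn = q + 1 := ⟨Qn - 1, by omega⟩
    have hQq : ((q : ℝ) + 1) = Qn := by rw [hq]; push_cast; rfl
    have hQ1' : (1 : ℝ) ≤ Qn := by exact_mod_cast hQ1
    set k : ℕ := ⌈6 * (n : ℝ) / ((q : ℝ) + 1)⌉₊ with hk
    obtain ⟨ω, h1, h2⟩ := exists_good n q (n / 4) k (estimate n q (n / 4) k hbig (by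
      rw [hQq]
      have : (Qn : ℝ) ^ 4 ≤ x ^ 4 := pow_le_pow_left₀ (by positivity) hQx 4
      rw [hx4, le_div_iff₀ (by positivity)] at this
      linarith) (by omega) (Nat.le_ceil _))
    refine ⟨gr n q ω, fun v => ?_, no_minor n q (n / 4) (by omega) ω h2⟩
    have hlt := nonnbr_lt n q k ω h1 v
    have hlt' : (({y | v ≠ y ∧ ¬ (gr n q ω).Adj v y}.ncard : ℕ) : ℝ) ≤
        6 * (n : ℝ) / ((q : ℝ) + 1) := by
      have h3 : {y | v ≠ y ∧ ¬ (gr n q ω).Adj v y}.ncard < ⌈6 * (n : ℝ) / ((q : ℝ) + 1)⌉₊ := hlt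
      exact (Nat.lt_ceil.1 h3).le
    refine hlt'.trans ?_
    rw [hQq]
    have hx0 : 0 < x := by linarith
    have h4 : 6 * (n : ℝ) / Qn ≤ 12 * n / x := by
      rw [div_le_div_iff₀ (by linarith) hx0]
      nlinarith
    refine h4.trans ?_
    rw [div_le_iff₀ hx0, hx]
    have h5 : ((n : ℝ) / (40 * L)) ^ ((1 : ℝ) / 4) =
        (n : ℝ) ^ ((1 : ℝ) / 4) / (40 ^ ((1 : ℝ) / 4) * L ^ ((1 : ℝ) / 4)) := by
      rw [Real.div_rpow hn0.le (by positivity), Real.mul_rpow (by norm_num) (by positivity)]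
    rw [h5]
    have hLpos : 0 < L ^ ((1 : ℝ) / 4) := Real.rpow_pos_of_pos (by linarith) _
    have h40pos : (0 : ℝ) < 40 ^ ((1 : ℝ) / 4) := Real.rpow_pos_of_pos (by norm_num) _
    have h6 : (40 : ℝ) ^ ((1 : ℝ) / 4) ≤ 31 / 12 := by
      have : (40 : ℝ) ≤ (31 / 12) ^ 4 := by norm_num
      calc (40 : ℝ) ^ ((1 : ℝ) / 4) ≤ ((31 / 12 : ℝ) ^ 4) ^ ((1 : ℝ) / 4) :=
            Real.rpow_le_rpow (by norm_num) this (by norm_num)
        _ = 31 / 12 := by
            rw [← Real.rpow_natCast, ← Real.rpow_mul (by norm_num)]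
            norm_num
    have h7 : (n : ℝ) ^ ((3 : ℝ) / 4) * (n : ℝ) ^ ((1 : ℝ) / 4) = n := by
      rw [← Real.rpow_add hn0]; norm_num
    have h8 : 31 * (n : ℝ) ^ ((3 : ℝ) / 4) * L ^ ((1 : ℝ) / 4) *
        ((n : ℝ) ^ ((1 : ℝ) / 4) / (40 ^ ((1 : ℝ) / 4) * L ^ ((1 : ℝ) / 4))) =
        31 * n / 40 ^ ((1 : ℝ) / 4) := by
      have h9 : ∀ a b c l : ℝ, 0 < c → 0 < l → 31 * a * l * (b / (c * l)) = 31 * (a * b) / c := by
        intro a b c l hc hl
        field_simp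
      rw [h9 _ _ _ _ h40pos hLpos, h7]
    rw [h8, le_div_iff₀ h40pos]
    nlinarith

end Pool.Agent.TH446.HN.Sharp
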