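import Pool.Agent.TH446.HN.Fin
import Pool.Agent.TH481.DenseMinor8

/-! Vertex-critical graphs and smallest counterexamples to Hadwiger's conjecture, and to its
off-by-one form, when every vertex has at most `c n ^ (3 / 4)` non-neighbours. -/

set_option autoImplicit false

namespace Pool.Agent.TH446.HN.Crit

open Finset Pool.Agent.W212.EFF TH481.DM

theorem ndeg_ind {V : Type} [Fintype V] (G : SimpleGraph V) (U : Set V) (x : U) :
    Pool.Agent.W292.RG.ndeg (G.induce U) x ≤ Pool.Agent.W292.RG.ndeg G x.1 := by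
  unfold Pool.Agent.W292.RG.ndeg
  rw [← Set.ncard_image_of_injective _ (Subtype.val_injective (p := fun x => x ∈ U))]
  refine Set.ncard_le_ncard ?_ (Set.toFinite _)
  rintro _ ⟨y, hy, rfl⟩
  change (G.induce U)ᶜ.Adj x y at hy
  change Gᶜ.Adj x.1 y.1
  rw [SimpleGraph.compl_adj] at hy ⊢
  exact ⟨fun h => hy.1 (Subtype.ext h), fun h => hy.2 (by simpa using h)⟩

open Classical in
/-- Large components of the complement of a vertex-critical graph. -/
theorem comp_good {V : Type} [Fintype V] (G H : SimpleGraph V)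
    (hHadj : ∀ u v, H.Adj u v ↔ u ≠ v ∧ ¬ G.Adj u v)
    (hcrit : ∀ v, Y (Ind G) ((univ : Finset V).erase v) < Y (Ind G) (univ : Finset V)) (a : V)
    (D : ℕ) (hD : ∀ x, Pool.Agent.W292.RG.ndeg G x ≤ D)
    (hbig : 50000 * D ^ 4 ≤ (comp H a).card ^ 3) :
    MinorIn G (comp H a : Set V) (Y (Ind G) (comp H a)) := by
  apply minorIn_of_induce
  have hcard : Fintype.card ((comp H a : Finset V) : Set V) = (comp H a).card := by
    simp
  have hg := comp_gallai G H hHadj hcrit a
  have h : HasCliqueMinor (G.induce ((comp H a : Finset V) : Set V))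
      ((Fintype.card ((comp H a : Finset V) : Set V) + 1) / 2) :=
    half34 _ (G.induce ((comp H a : Finset V) : Set V)) D
      (fun x => (ndeg_ind G _ x).trans (hD x.1)) (by rw [hcard]; exact hbig)
  exact minor_mono _ _ _ h (by rw [hcard]; omega)

open Classical in
theorem comp_small {V : Type} [Fintype V] (G H : SimpleGraph V)
    (hHadj : ∀ u v, H.Adj u v ↔ u ≠ v ∧ ¬ G.Adj u v) (e k : ℕ) (he : e ≤ 1)
    (h1 : ¬ G.Colorable k) (h2 : ¬ HasCliqueMinor G (k + e))
    (hmin : ∀ U : Set V, U ≠ Set.univ → ∀ j, ¬ (G.induce U).Colorable j →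
      HasCliqueMinor (G.induce U) (j + e)) (a : V) (D : ℕ)
    (hD : ∀ x, Pool.Agent.W292.RG.ndeg G x ≤ D) :
    (comp H a).card ^ 3 < 50000 * D ^ 4 := by
  by_contra hcon
  have hcrit := crit_of_min G e k he h1 h2 hmin
  have hgood := comp_good G H hHadj hcrit a D hD (not_lt.1 hcon)
  refine good_set G e k he h1 h2 hmin (comp H a) ⟨a, ?_⟩ ?_ hgood
  · simp only [comp, mem_filter, mem_univ, true_and]
    exact SimpleGraph.Reachable.refl a
  · intro x hx y hy
    exact comp_joined G H hHadj a x hx y (by rw [mem_compl] at hy; exact hy)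

open Classical in
/-- Smallest counterexamples to Hadwiger's conjecture. -/
theorem min_hadwiger34 {V : Type} [Fintype V] (G : SimpleGraph V) (k : ℕ)
    (h1 : ¬ G.Colorable k) (h2 : ¬ HasCliqueMinor G (k + 1))
    (hmin : ∀ U : Set V, U ≠ Set.univ → ∀ j, ¬ (G.induce U).Colorable j →
      HasCliqueMinor (G.induce U) (j + 1)) (D : ℕ)
    (hD : ∀ x, Pool.Agent.W292.RG.ndeg G x ≤ D) :
    Fintype.card V ^ 3 < 50000 * D ^ 4 := by
  have hHadj : ∀ u v, Gᶜ.Adj u v ↔ u ≠ v ∧ ¬ G.Adj u v := fun u v => by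
    rw [SimpleGraph.compl_adj]
  obtain ⟨a⟩ : Nonempty V := by
    by_contra hne
    rw [not_nonempty_iff] at hne
    exact h1 ⟨SimpleGraph.Coloring.mk (fun v => (hne.false v).elim)
      (fun {v} => (hne.false v).elim)⟩
  have huniv : comp Gᶜ a = univ := by
    by_contra hne
    have hne' : ((comp Gᶜ a : Finset V) : Set V) ≠ Set.univ := by
      intro h
      exact hne (Finset.coe_eq_univ.1 h)
    refine good_set G 1 k (le_refl 1) h1 h2 hmin (comp Gᶜ a) ⟨a, ?_⟩ ?_ ?_
    · simp only [comp, mem_filter, mem_univ, true_and]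
      exact SimpleGraph.Reachable.refl a
    · intro x hx y hy
      exact comp_joined G Gᶜ hHadj a x hx y (by rw [mem_compl] at hy; exact hy)
    · rcases Nat.eq_zero_or_pos (Y (Ind G) (comp Gᶜ a)) with h0 | h0
      · rw [h0]; exact minorIn_zero G _
      · have h3 := hmin _ hne' _ (not_colorable_induce G (comp Gᶜ a) h0)
        rw [Nat.sub_add_cancel h0] at h3
        exact minorIn_of_induce G _ _ h3
  have h3 := comp_small G Gᶜ hHadj 1 k (le_refl 1) h1 h2 hmin a D hD
  rwa [huniv, Finset.card_univ] at h3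

open Classical in
/-- Representatives of the components of the complement of a vertex-critical graph. -/
theorem reps {V : Type} [Fintype V] (G H : SimpleGraph V)
    (hHadj : ∀ u v, H.Adj u v ↔ u ≠ v ∧ ¬ G.Adj u v)
    (hcrit : ∀ v, Y (Ind G) ((univ : Finset V).erase v) < Y (Ind G) (univ : Finset V)) :
    ∃ S : Finset V, (∀ u ∈ S, ∀ v ∈ S, H.Reachable u v → u = v) ∧
      (∀ v, ∃ u ∈ S, H.Reachable u v) ∧
      2 * Y (Ind G) (univ : Finset V) ≤ 2 * S.card + (Sᶜ : Finset V).card := by
  have hsurj : Function.Surjective H.connectedComponentMk := by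
    intro C
    induction C using SimpleGraph.ConnectedComponent.ind with
    | _ v => exact ⟨v, rfl⟩
  set rep := Function.surjInv hsurj with hrep
  have hrepq : ∀ C, H.connectedComponentMk (rep C) = C := Function.surjInv_eq hsurj
  have hrepinj : Function.Injective rep := Function.injective_surjInv hsurj
  set S : Finset V := univ.image rep with hS
  have hScard : S.card = Fintype.card H.ConnectedComponent := by
    rw [hS, Finset.card_image_of_injective _ hrepinj, Finset.card_univ]
  have hcompmem : ∀ C v, v ∈ comp H (rep C) ↔ H.connectedComponentMk v = C := by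
    intro C v
    simp only [comp, mem_filter, mem_univ, true_and]
    rw [← SimpleGraph.ConnectedComponent.eq, hrepq]
    exact eq_comm
  have hsum : Fintype.card V = ∑ C : H.ConnectedComponent, (comp H (rep C)).card := by
    rw [← Finset.card_univ, Finset.card_eq_sum_card_fiberwise (s := (univ : Finset V))
      (f := fun v => H.connectedComponentMk v) (t := (univ : Finset H.ConnectedComponent))
      (by intro x _; simp)]
    refine Finset.sum_congr rfl (fun C _ => ?_)
    congr 1
    ext v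
    rw [mem_filter, hcompmem]
    simp
  have hY : 2 * Y (Ind G) (univ : Finset V) ≤
      Fintype.card V + Fintype.card H.ConnectedComponent := by
    have hun : (univ : Finset V) = (univ : Finset H.ConnectedComponent).biUnion
        (fun C => comp H (rep C)) := by
      ext v
      simp only [mem_univ, mem_biUnion, true_and, true_iff]
      exact ⟨H.connectedComponentMk v, (hcompmem _ v).2 rfl⟩
    have h3 : Y (Ind G) (univ : Finset V) ≤ ∑ C : H.ConnectedComponent,
        Y (Ind G) (comp H (rep C)) := by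
      conv_lhs => rw [hun]
      exact Y_biUnion_le (ind_cpx G) _ _
    calc 2 * Y (Ind G) (univ : Finset V) ≤ 2 * ∑ C : H.ConnectedComponent,
          Y (Ind G) (comp H (rep C)) := Nat.mul_le_mul_left _ h3
      _ = ∑ C : H.ConnectedComponent, 2 * Y (Ind G) (comp H (rep C)) := by rw [Finset.mul_sum]
      _ ≤ ∑ C : H.ConnectedComponent, ((comp H (rep C)).card + 1) :=
          Finset.sum_le_sum (fun C _ => comp_gallai G H hHadj hcrit (rep C))
      _ = Fintype.card V + Fintype.card H.ConnectedComponent := by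
          rw [Finset.sum_add_distrib, ← hsum]; simp
  refine ⟨S, ?_, ?_, ?_⟩
  · intro u hu v hv huv
    obtain ⟨C, _, rfl⟩ := mem_image.1 hu
    obtain ⟨C', _, rfl⟩ := mem_image.1 hv
    have := SimpleGraph.ConnectedComponent.eq.2 huv
    rw [hrepq, hrepq] at this
    rw [this]
  · intro v
    refine ⟨rep (H.connectedComponentMk v), mem_image_of_mem _ (mem_univ _), ?_⟩
    exact SimpleGraph.ConnectedComponent.eq.1 (hrepq _)
  · have h1 : S.card + (Sᶜ : Finset V).card = Fintype.card V := Finset.card_add_card_compl S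
    omega

open Classical in
/-- Half of the vertices which have a non-neighbour are not representatives. -/
theorem rest_large {V : Type} [Fintype V] (H : SimpleGraph V) (S : Finset V)
    (hS : ∀ u ∈ S, ∀ v ∈ S, H.Reachable u v → u = v) (N : Finset V)
    (hN : ∀ v ∈ N, ∃ w, H.Adj v w) : N.card ≤ 2 * (Sᶜ : Finset V).card := by
  have h1 : N.card ≤ (N.filter (fun v => v ∈ S)).card + (N.filter (fun v => v ∉ S)).card := by
    rw [Finset.card_filter_add_card_filter_not]
  have h2 : (N.filter (fun v => v ∉ S)).card ≤ (Sᶜ : Finset V).card := by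
    apply card_le_card
    intro v hv
    rw [mem_filter] at hv
    exact mem_compl.2 hv.2
  have h3 : (N.filter (fun v => v ∈ S)).card ≤ (Sᶜ : Finset V).card := by
    have hch : ∀ v, ∃ w, v ∈ N → H.Adj v w := by
      intro v
      by_cases hv : v ∈ N
      · obtain ⟨w, hw⟩ := hN v hv
        exact ⟨w, fun _ => hw⟩
      · exact ⟨v, fun h => absurd h hv⟩
    choose g hg using hch
    refine Finset.card_le_card_of_injOn g ?_ ?_
    · intro v hv
      have hv' := mem_filter.1 (mem_coe.1 hv)
      have hadj := hg v hv'.1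
      rw [mem_coe, mem_compl]
      intro hgS
      have := hS v hv'.2 (g v) hgS hadj.reachable
      exact hadj.ne this
    · intro v hv v' hv' heq
      have hv1 := mem_filter.1 (mem_coe.1 hv)
      have hv2 := mem_filter.1 (mem_coe.1 hv')
      have a1 := (hg v hv1.1).reachable
      have a2 := (hg v' hv2.1).reachable
      rw [← heq] at a2
      exact hS v hv1.2 v' hv2.2 (a1.trans a2.symm)
  omega

theorem arith_crit (D m r w : ℕ) (h4 : 4 ≤ D) (hbig : 1728000000 * D ^ 4 ≤ m ^ 3)
    (hm : m ≤ 2 * r) (hw : r ≤ w + 1) :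
    49200 * D ^ 4 ≤ w ^ 3 ∧ 96 * (D + D + 1) ≤ w ∧ 3200 ≤ w := by
  have h7 : 7600 ≤ m := by
    by_contra hcon
    push Not at hcon
    have e1 : m ^ 3 < 7600 ^ 3 := Nat.pow_lt_pow_left hcon (by norm_num)
    have e2 : 1728000000 * 4 ^ 4 ≤ 1728000000 * D ^ 4 :=
      Nat.mul_le_mul_left _ (Nat.pow_le_pow_left h4 4)
    omega
  have hmw : m ≤ 4 * w := by omega
  have h8 : 1800 * D ≤ m := by
    by_contra hcon
    push Not at hcon
    have e1 : m ^ 3 < (1800 * D) ^ 3 := Nat.pow_lt_pow_left hcon (by norm_num)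
    have e2 : (1800 * D) ^ 3 ≤ 1728000000 * D ^ 4 := by
      calc (1800 * D) ^ 3 = 1458000000 * 4 * D ^ 3 := by ring
        _ ≤ 1728000000 * D * D ^ 3 := by
            apply Nat.mul_le_mul_right
            omega
        _ = 1728000000 * D ^ 4 := by ring
    omega
  refine ⟨?_, by omega, by omega⟩
  have e3 : m ^ 3 ≤ (4 * w) ^ 3 := Nat.pow_le_pow_left hmw 3
  have e4 : (4 * w) ^ 3 = 64 * w ^ 3 := by ring
  rw [e4] at e3
  have e5 : 64 * (49200 * D ^ 4) ≤ 64 * w ^ 3 := by
    calc 64 * (49200 * D ^ 4) = 3148800 * D ^ 4 := by ring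
      _ ≤ 1728000000 * D ^ 4 := Nat.mul_le_mul_right _ (by norm_num)
      _ ≤ m ^ 3 := hbig
      _ ≤ 64 * w ^ 3 := e3
  exact Nat.le_of_mul_le_mul_left e5 (by norm_num)

open Classical in
/-- Vertex-critical graphs, `D ≥ 4`. -/
theorem crit_big {V : Type} [Fintype V] (G H : SimpleGraph V)
    (hHadj : ∀ u v, H.Adj u v ↔ u ≠ v ∧ ¬ G.Adj u v)
    (hcrit : ∀ v, Y (Ind G) ((univ : Finset V).erase v) < Y (Ind G) (univ : Finset V))
    (D : ℕ) (hD : ∀ x, Pool.Agent.W292.RG.ndeg G x ≤ D) (N : Finset V)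
    (hN : ∀ v ∈ N, ∃ w, H.Adj v w)
    (h4 : 4 ≤ D) (hbig : 1728000000 * D ^ 4 ≤ N.card ^ 3) :
    H331HC.KMinor G (Y (Ind G) (univ : Finset V)) := by
  obtain ⟨S, hS1, hS2, hS3⟩ := reps G H hHadj hcrit
  have hrl := rest_large H S hS1 N hN
  have hGH : Gᶜ = H := by
    ext u v
    rw [SimpleGraph.compl_adj, hHadj]
  obtain ⟨W, hWS, hWc⟩ := Finset.exists_subset_card_eq
    (s := (Sᶜ : Finset V)) (n := 2 * ((Sᶜ : Finset V).card / 2)) (by omega)
  obtain ⟨g1, g2, g3⟩ := arith_crit D N.card (Sᶜ : Finset V).card W.card h4 hbig (by omega) (by omega)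
  obtain ⟨f, f1, f2, f3, f4⟩ := pairing V G W D D
    (fun x y => ∀ s ∈ S, ¬ (Gᶜ.Adj x s ∧ Gᶜ.Adj y s)) hD g1 g2 g3
    (by rw [hWc]; exact even_two_mul _)
    (fun x y h s hs h' => h s hs ⟨h'.2, h'.1⟩)
    (by
      intro x _
      by_cases hx : ∃ s ∈ S, Gᶜ.Adj x s
      · obtain ⟨s0, hs0, hxs0⟩ := hx
        refine (card_le_card ?_).trans (nbr_card G D hD s0)
        intro y hy
        rw [mem_filter] at hy
        have hy2 := hy.2
        push Not at hy2
        obtain ⟨s, hs, hxs, hys⟩ := hy2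
        have hss : s = s0 := by
          apply hS1 s hs s0 hs0
          rw [← hGH]
          exact hxs.symm.reachable.trans hxs0.reachable
        subst hss
        rw [mem_filter]
        exact ⟨mem_univ _, hys.symm⟩
      · have : (W.filter (fun y => ¬ ∀ s ∈ S, ¬ (Gᶜ.Adj x s ∧ Gᶜ.Adj y s))) = ∅ := by
          rw [Finset.filter_eq_empty_iff]
          intro y _
          rw [not_not]
          intro s hs h
          exact hx ⟨s, hs, h.1⟩
        rw [this]
        simp)
  have hd : Disjoint S W := by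
    rw [Finset.disjoint_left]
    intro v hv hvW
    exact (mem_compl.1 (hWS hvW)) hv
  refine (Pool.Agent.W22.RGM0.M0 V G S W f hd (fun x hx => (f3 x hx).1)
    (fun x _ => f1 x) (fun x hx => (f3 x hx).2.2.1) ?_ ?_ f4 (S.card + (Sᶜ : Finset V).card / 2)
    (by rw [hWc]; ring)).mono (by omega)
  · intro s hs t ht hst
    by_contra hcon
    exact hst (hS1 s hs t ht ((hHadj s t).2 ⟨hst, hcon⟩).reachable)
  · intro x hx s hs
    exact (f3 x hx).2.2.2 s hs

open Classical in
/-- Hadwiger's conjecture for vertex-critical graphs in which every vertex has at most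
`c m ^ (3 / 4)` non-neighbours. -/
theorem crit34 {V : Type} [Fintype V] (G : SimpleGraph V) (D : ℕ)
    (hD : ∀ x, Pool.Agent.W292.RG.ndeg G x ≤ D)
    (hbig : 1728000000 * D ^ 4 ≤ (Pool.Agent.W292.RG.nondom G).ncard ^ 3) (k : ℕ)
    (hcol : ∀ v, (G.induce {v}ᶜ).Colorable k) (hk : ¬ G.Colorable k) :
    H331HC.KMinor G (k + 1) := by
  rcases Nat.lt_or_ge D 4 with h4 | h4
  · refine had34 V G 1 D le_rfl ?_ ?_ k hk
    · intro x hx
      refine ⟨?_, hD x⟩
      obtain ⟨y, hy⟩ := hx
      unfold Pool.Agent.W292.RG.ndeg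
      rw [Nat.one_le_iff_ne_zero, ← Nat.pos_iff_ne_zero, Set.ncard_pos (Set.toFinite _)]
      exact ⟨y, (SimpleGraph.compl_adj G x y).2 hy⟩
    · have h27 : D ^ 3 ≤ 27 := by
        calc D ^ 3 ≤ 3 ^ 3 := Nat.pow_le_pow_left (by omega) 3
          _ = 27 := by norm_num
      calc 64000000 * D ^ 7 = 64000000 * D ^ 4 * D ^ 3 := by ring
        _ ≤ 64000000 * D ^ 4 * 27 := Nat.mul_le_mul_left _ h27
        _ = 1728000000 * D ^ 4 := by ring
        _ ≤ _ := by rw [one_pow, one_mul]; exact hbig
  · have hk' := lt_Y_univ G k hk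
    have hY : ∀ v, Y (Ind G) ((univ : Finset V).erase v) ≤ k := by
      intro v
      apply Y_le
      rw [cov_iff, ← colorable_induce_iff]
      have : (((univ : Finset V).erase v : Finset V) : Set V) = {v}ᶜ := by
        ext w; simp
      rw [this]
      exact hcol v
    refine (crit_big G Gᶜ (fun u v => by rw [SimpleGraph.compl_adj])
      (fun v => lt_of_le_of_lt (hY v) hk') D hD (Pool.Agent.W292.RG.nondom G).toFinset ?_ h4
      (by rwa [← Set.ncard_eq_toFinset_card'])).mono hk'
    intro v hv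
    rw [Set.mem_toFinset] at hv
    obtain ⟨w, hw⟩ := hv
    exact ⟨w, (SimpleGraph.compl_adj G v w).2 hw⟩

end Pool.Agent.TH446.HN.Crit
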