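import Pool.Agent.TH446.HN.Help
import Pool.Agent.W292.RG.All

/-! Hadwiger's conjecture for dense graphs whose complement is nearly regular. -/

set_option autoImplicit false

namespace Pool.Agent.TH446.HN

open Finset H331HC Pool.Agent.W292.RG Pool.Agent.Helper879.ECD

theorem AR34 (d D n a s w w0 : ℕ) (hdD : d ≤ D) (hD : 544 ≤ D)
    (hK : 64000000 * D ^ 7 ≤ d ^ 3 * n ^ 3) (hn : n = a + s + w0) (hs : d * s ≤ D * a)
    (hw0 : 2 * w0 ≤ 3 * w) (hw : w ^ 3 < 49200 * D ^ 4) :
    ∃ m : ℕ, m + 3 * w0 + D ≤ a ∧ D ^ 4 < m ^ 3 := by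
  have gD : (544 : ℝ) ≤ D := by exact_mod_cast hD
  have gD0 : (0 : ℝ) < D := by linarith
  have gdD : (d : ℝ) ≤ D := by exact_mod_cast hdD
  have gK : (64000000 : ℝ) * (D : ℝ) ^ 7 ≤ (d : ℝ) ^ 3 * (n : ℝ) ^ 3 := by exact_mod_cast hK
  have gn : (n : ℝ) = a + s + w0 := by exact_mod_cast hn
  have gs : (d : ℝ) * s ≤ D * a := by exact_mod_cast hs
  have gw0 : (2 : ℝ) * w0 ≤ 3 * w := by exact_mod_cast hw0
  have gw : (w : ℝ) ^ 3 < 49200 * (D : ℝ) ^ 4 := by exact_mod_cast hw
  set x : ℝ := (D : ℝ) ^ ((4 : ℝ) / 3) with hx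
  have hx0 : 0 < x := Real.rpow_pos_of_pos gD0 _
  have hx3 : x ^ 3 = (D : ℝ) ^ 4 := by
    rw [hx, ← Real.rpow_natCast, ← Real.rpow_mul gD0.le, ← Real.rpow_natCast]
    norm_num
  have hDx : 8 * (D : ℝ) ≤ x := by
    by_contra hcon
    push Not at hcon
    have h1 : x ^ 3 < (8 * (D : ℝ)) ^ 3 := pow_lt_pow_left₀ hcon hx0.le (by norm_num)
    rw [hx3] at h1
    have h2 : (8 * (D : ℝ)) ^ 3 = 512 * (D : ℝ) ^ 3 := by ring
    have h3 : (D : ℝ) ^ 4 = D * (D : ℝ) ^ 3 := by ring
    rw [h2, h3] at h1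
    have h4 : (0 : ℝ) < (D : ℝ) ^ 3 := by positivity
    nlinarith
  have hwx : (w : ℝ) < 36.65 * x := by
    by_contra hcon
    push Not at hcon
    have h1 : (36.65 * x) ^ 3 ≤ (w : ℝ) ^ 3 := pow_le_pow_left₀ (by positivity) hcon 3
    have h2 : (36.65 * x) ^ 3 = 49229.104625 * (D : ℝ) ^ 4 := by
      rw [← hx3]; ring
    have h4 : (0 : ℝ) < (D : ℝ) ^ 4 := by positivity
    rw [h2] at h1
    nlinarith
  have hdn : 400 * (D * x) ≤ (d : ℝ) * n := by
    by_contra hcon
    push Not at hcon
    have h0 : (0 : ℝ) ≤ (d : ℝ) * n := by positivity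
    have h1 : ((d : ℝ) * n) ^ 3 < (400 * (D * x)) ^ 3 := pow_lt_pow_left₀ hcon h0 (by norm_num)
    have h2 : (400 * ((D : ℝ) * x)) ^ 3 = 64000000 * (D : ℝ) ^ 7 := by
      calc (400 * ((D : ℝ) * x)) ^ 3 = 64000000 * (D : ℝ) ^ 3 * x ^ 3 := by ring
        _ = 64000000 * (D : ℝ) ^ 3 * (D : ℝ) ^ 4 := by rw [hx3]
        _ = 64000000 * (D : ℝ) ^ 7 := by ring
    rw [h2, mul_pow] at h1
    linarith
  have ha0 : (0 : ℝ) ≤ a := by positivity
  have hw00 : (0 : ℝ) ≤ w0 := by positivity
  have hax : 400 * x ≤ 2 * a + w0 := by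
    have h1 : (d : ℝ) * n ≤ D * (2 * a + w0) := by
      rw [gn]
      nlinarith
    have h2 : D * (400 * x) ≤ (D : ℝ) * (2 * a + w0) := by
      calc D * (400 * x) = 400 * (D * x) := by ring
        _ ≤ _ := hdn.trans h1
    exact le_of_mul_le_mul_left h2 gD0
  have hmain : x + 3 * w0 + D < (a : ℝ) := by linarith
  have hle : 3 * w0 + D ≤ a := by
    have : (3 * w0 + D : ℝ) ≤ a := by linarith
    exact_mod_cast this
  refine ⟨a - (3 * w0 + D), by omega, ?_⟩
  have hm : x < ((a - (3 * w0 + D) : ℕ) : ℝ) := by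
    rw [Nat.cast_sub hle]
    push_cast
    linarith
  have : (D : ℝ) ^ 4 < ((a - (3 * w0 + D) : ℕ) : ℝ) ^ 3 := by
    rw [← hx3]
    exact pow_lt_pow_left₀ hm hx0.le (by norm_num)
  exact_mod_cast this

theorem MAIN34 (V : Type) [Fintype V] [DecidableEq V] (G : SimpleGraph V) (d D : ℕ)
    (_hd : 1 ≤ d) (hD : 544 ≤ D) (hdeg : ∀ x, d ≤ ndeg G x ∧ ndeg G x ≤ D)
    (hn : 64000000 * D ^ 7 ≤ d ^ 3 * Fintype.card V ^ 3)
    (A : Set V) (s : ℕ) (hs : 2 * s + A.ncard = Fintype.card V + {Z | OddComp Gᶜ A Z}.ncard) :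
    KMinor G s := by
  classical
  obtain ⟨X, hXA, hXc, hXodd, hXinj, hXrep⟩ := Pool.Agent.W460.RG.REP V G A
  have hfin : ∀ x : V, {y | (off Gᶜ A).Reachable x y}.Finite := fun x => Set.toFinite _
  let c : V → Finset V := fun x => (hfin x).toFinset
  have hcmem : ∀ x y, y ∈ c x ↔ (off Gᶜ A).Reachable x y := by
    intro x y
    simp [c]
  have hcard : ∀ x, (c x).card = {y | (off Gᶜ A).Reachable x y}.ncard := by
    intro x
    rw [Set.ncard_eq_toFinset_card _ (hfin x)]
  have hceq : ∀ x y, c x = c y ↔ (off Gᶜ A).Reachable x y := by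
    intro x y
    constructor
    · intro h
      have : y ∈ c x := by rw [h, hcmem]
      exact (hcmem _ _).1 this
    · intro h
      ext z
      rw [hcmem, hcmem]
      exact ⟨fun h' => h.symm.trans h', fun h' => h.trans h'⟩
  set Af : Finset V := univ.filter (fun x => x ∈ A) with hAf
  set N : Finset V := univ.filter (fun x => x ∉ A) with hN
  set W : Finset V := N \ X with hW
  have hXN : X ⊆ N := by
    intro x hx
    rw [hN, mem_filter]
    exact ⟨mem_univ _, hXA x hx⟩
  have hAc : A.ncard = Af.card := by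
    rw [Set.ncard_eq_toFinset_card']
    congr 1
    ext x
    simp [hAf]
  have hAN : Af.card + N.card = Fintype.card V := by
    rw [hAf, hN, ← Finset.card_univ]
    exact Finset.card_filter_add_card_filter_not (s := univ) (fun x => x ∈ A)
  have hNW : W.card + X.card = N.card := by
    rw [hW]
    exact Finset.card_sdiff_add_card_eq_card hXN
  have hXW : X ∪ W = N := by
    rw [hW]
    exact Finset.union_sdiff_of_subset hXN
  have hdXW : Disjoint X W := by
    rw [hW]
    exact disjoint_sdiff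
  have h2s : 2 * s = 2 * X.card + W.card := by
    omega
  -- adjacency outside classes
  have hadj : ∀ x ∈ N, ∀ y ∈ N, x ≠ y → ¬ G.Adj x y → c x = c y := by
    intro x hx y hy hxy hn'
    rw [hceq]
    refine SimpleGraph.Adj.reachable ?_
    rw [hN, mem_filter] at hx hy
    exact ⟨(SimpleGraph.compl_adj G _ _).2 ⟨hxy, hn'⟩, hx.2, hy.2⟩
  have hcN : ∀ x ∈ N, ∀ y ∈ c x, y ∈ N := by
    intro x hx y hy
    rw [hN, mem_filter] at hx ⊢
    exact ⟨mem_univ _, off_reach_notMem hx.2 ((hcmem _ _).1 hy)⟩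
  have hcfil : ∀ x ∈ N, N.filter (fun y => c y = c x) = c x := by
    intro x hx
    ext y
    rw [mem_filter, hceq, hcmem]
    constructor
    · rintro ⟨_, h⟩
      exact h.symm
    · intro h
      exact ⟨hcN x hx y ((hcmem _ _).2 h), h.symm⟩
  have hsplit : ∀ x ∈ N, (X.filter (fun y => c y = c x)).card +
      (W.filter (fun y => c y = c x)).card = (c x).card := by
    intro x hx
    have h1 : (c x).card = ((X ∪ W).filter (fun y => c y = c x)).card := by
      rw [hXW, hcfil x hx]
    rw [h1, filter_union, card_union_of_disjoint (Finset.disjoint_filter_filter hdXW)]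
  have hX01 : ∀ x ∈ N, (X.filter (fun y => c y = c x)).card = (c x).card % 2 := by
    intro x hx
    rcases Nat.even_or_odd (c x).card with he | ho
    · rw [Nat.even_iff.1 he, card_eq_zero, filter_eq_empty_iff]
      intro t ht h
      have h1 := hXodd t ht
      rw [← hcard, h] at h1
      exact (Nat.not_even_iff_odd.2 h1) he
    · rw [Nat.odd_iff.1 ho, card_eq_one]
      have hxA : x ∉ A := by
        rw [hN, mem_filter] at hx
        exact hx.2
      have ho' := ho
      rw [hcard] at ho'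
      obtain ⟨t, ht, htr⟩ := hXrep x hxA ho'
      refine ⟨t, ?_⟩
      ext z
      rw [mem_filter, mem_singleton]
      constructor
      · rintro ⟨hz, hzc⟩
        refine hXinj z hz t ht ?_
        exact ((hceq _ _).1 hzc).trans htr
      · rintro rfl
        exact ⟨ht, ((hceq _ _).2 htr).symm⟩
  have hXinj' : ∀ a ∈ X, ∀ b ∈ X, c a = c b → a = b := fun a ha b hb h =>
    hXinj a ha b hb ((hceq _ _).1 h)
  have hWN : W ⊆ N := by rw [hW]; exact sdiff_subset
  by_cases hI : ∀ x ∈ W, 2 * (W.filter (fun y => c y = c x)).card ≤ W.card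
  · refine (Pool.Agent.W565.RG.M1 Pool.Agent.W22.RGM0.M0) V (Finset V) G c X W hdXW ?_ hXinj' hI
      s h2s
    rw [hXW]
    exact hadj
  by_cases hbig : 49200 * D ^ 4 ≤ W.card ^ 3
  · -- the local lemma on `W`
    have h299 : 299 * D ≤ W.card := by
      by_contra hcon
      push Not at hcon
      have e1 : W.card ^ 3 < (299 * D) ^ 3 := Nat.pow_lt_pow_left hcon (by norm_num)
      have e2 : (299 * D) ^ 3 ≤ 49200 * D ^ 4 := by
        calc (299 * D) ^ 3 = 26730899 * D ^ 3 := by ring
          _ ≤ (49200 * D) * D ^ 3 := Nat.mul_le_mul_right _ (by omega)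
          _ = 49200 * D ^ 4 := by ring
      omega
    have hXs : ∀ a ∈ X, ∀ b ∈ X, a ≠ b → G.Adj a b := by
      intro a ha b hb hab
      by_contra h
      exact hab (hXinj' a ha b hb (hadj a (hXN ha) b (hXN hb) hab h))
    have hWeven : Even W.card := by
      rw [Nat.even_iff]
      omega
    obtain ⟨f, f1, f2, f3, f4⟩ := pairing V G W D D
      (fun x y => ¬ ∃ t ∈ X, Gᶜ.Adj x t ∧ Gᶜ.Adj y t) (fun x => (hdeg x).2) hbig (by omega)
      (by omega) hWeven
      (fun x y h h' => h (by
        obtain ⟨t, ht, h1, h2⟩ := h'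
        exact ⟨t, ht, h2, h1⟩))
      (by
        intro x hx
        by_cases hex : ∃ t ∈ X, Gᶜ.Adj x t
        · obtain ⟨t, ht, htx⟩ := hex
          refine (card_le_card ?_).trans (nbr_card G D (fun x => (hdeg x).2) t)
          intro y hy
          rw [mem_filter, not_not] at hy
          obtain ⟨_, t', ht', h1, h2⟩ := hy
          have hcc : ∀ u ∈ X, Gᶜ.Adj x u → c x = c u := by
            intro u hu hxu
            rw [SimpleGraph.compl_adj] at hxu
            exact hadj x (hWN hx) u (hXN hu) hxu.1 hxu.2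
          have : t' = t := hXinj' t' ht' t ht ((hcc t' ht' h1).symm.trans (hcc t ht htx))
          subst this
          rw [mem_filter]
          exact ⟨mem_univ _, h2.symm⟩
        · have : W.filter (fun y => ¬ ¬ ∃ t ∈ X, Gᶜ.Adj x t ∧ Gᶜ.Adj y t) = ∅ := by
            rw [filter_eq_empty_iff]
            intro y _ h
            rw [not_not] at h
            obtain ⟨t, ht, h1, _⟩ := h
            exact hex ⟨t, ht, h1⟩
          rw [this]
          simp)
    exact Pool.Agent.W22.RGM0.M0 V G X W f hdXW (fun x hx => (f3 x hx).1) (fun x _ => f1 x)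
      (fun x hx => (f3 x hx).2.2.1) hXs (fun x hx t ht h => (f3 x hx).2.2.2 ⟨t, ht, h⟩) f4 s h2s
  · push Not at hbig
    have hdD : d ≤ D := by
      have hV : 0 < Fintype.card V := by
        by_contra h0
        have : Fintype.card V = 0 := by omega
        rw [this] at hn
        have : 0 < D ^ 7 := pow_pos (by omega) 7
        simp at hn
        omega
      obtain ⟨x⟩ := Fintype.card_pos_iff.1 hV
      exact (hdeg x).1.trans (hdeg x).2
    set W₀ : Finset V := (X ∪ W).filter (fun x => ∃ y ∈ X ∪ W, y ≠ x ∧ c y = c x) with hW₀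
    have hcls : 2 * W₀.card ≤ 3 * W.card := by
      refine Pool.Agent.W988.RG.CLS V (Finset V) c X W hdXW hXinj' ?_
      rintro t ht ⟨y, hy, hyc⟩
      have e5 := hsplit t (hXN ht)
      have e6 := hX01 t (hXN ht)
      have e7 : 0 < (W.filter (fun y => c y = c t)).card :=
        card_pos.2 ⟨y, mem_filter.2 ⟨hy, hyc⟩⟩
      have e8 : 0 < (X.filter (fun y => c y = c t)).card :=
        card_pos.2 ⟨t, mem_filter.2 ⟨ht, rfl⟩⟩
      omega
    have hW₀N : W₀ ⊆ N := by
      rw [hW₀, hXW]
      exact filter_subset _ _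
    set S : Finset V := N \ W₀ with hS
    have hSN : S ⊆ N := sdiff_subset
    have hSW : S.card + W₀.card = N.card := by
      rw [hS]
      exact Finset.card_sdiff_add_card_eq_card hW₀N
    have halone : ∀ x ∈ S, ∀ y ∈ N, y ≠ x → c y ≠ c x := by
      intro x hx y hy hyx hc
      rw [hS, mem_sdiff] at hx
      apply hx.2
      rw [hW₀, hXW, mem_filter]
      exact ⟨hx.1, y, hy, hyx, hc⟩
    have hSA : Disjoint S Af := by
      rw [Finset.disjoint_left]
      intro x hx hx'
      have := hSN hx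
      rw [hN, mem_filter] at this
      rw [hAf, mem_filter] at hx'
      exact this.2 hx'.2
    have hWA : Disjoint W₀ Af := by
      rw [Finset.disjoint_left]
      intro x hx hx'
      have := hW₀N hx
      rw [hN, mem_filter] at this
      rw [hAf, mem_filter] at hx'
      exact this.2 hx'.2
    have hdc := Pool.Agent.W997.RG.DC V G S Af d D hdeg hSA (by
      intro x hx y hxy
      by_contra hy
      have hyN : y ∈ N := by
        rw [hN, mem_filter]
        refine ⟨mem_univ _, fun h => hy ?_⟩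
        rw [hAf, mem_filter]
        exact ⟨mem_univ _, h⟩
      rw [SimpleGraph.compl_adj] at hxy
      exact halone x hx y hyN (Ne.symm hxy.1) (hadj x (hSN hx) y hyN hxy.1 hxy.2).symm)
    obtain ⟨m, hm, hm4⟩ := AR34 d D (Fintype.card V) Af.card S.card W.card W₀.card hdD hD hn
      (by omega) hdc hcls hbig
    have hk := M3' G S W₀ Af D m (fun x => (hdeg x).2)
      (by rw [hS]; exact sdiff_disjoint) hSA hWA (by
        intro x hx y hy hxy
        have hyN : y ∈ N := by
          rw [mem_union] at hy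
          rcases hy with hy | hy
          · exact hSN hy
          · exact hW₀N hy
        by_contra h
        exact halone x hx y hyN hxy.symm (hadj x (hSN hx) y hyN hxy h).symm) hm hm4
    refine hk.mono ?_
    have : X.card ≤ N.card := card_le_card hXN
    omega

/-- Hadwiger's conjecture for graphs in which the vertices that are not dominating have at least
`d` and at most `D` non-neighbours, `(400 ^ 3) D ^ 7 ≤ d ^ 3 n ^ 3`. -/
theorem had34 (V : Type) [Fintype V] (G : SimpleGraph V) (d D : ℕ) (hd : 1 ≤ d)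
    (hdeg : ∀ x ∈ nondom G, d ≤ ndeg G x ∧ ndeg G x ≤ D)
    (hn : 64000000 * D ^ 7 ≤ d ^ 3 * (nondom G).ncard ^ 3) (k : ℕ) (hk : ¬ G.Colorable k) :
    KMinor G (k + 1) := by
  classical
  by_cases hsm : D ≤ 543
  · refine Pool.Agent.W292.RG.final V G d D hd hdeg ?_ k hk
    have h1 : (19600 * D ^ 5) ^ 3 ≤ (d ^ 2 * (nondom G).ncard ^ 2) ^ 3 := by
      calc (19600 * D ^ 5) ^ 3 = 7529536000000 * D * D ^ 14 := by ring
        _ ≤ 7529536000000 * 543 * D ^ 14 := by gcongr
        _ ≤ 64000000 ^ 2 * D ^ 14 := Nat.mul_le_mul_right _ (by norm_num)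
        _ = (64000000 * D ^ 7) ^ 2 := by ring
        _ ≤ (d ^ 3 * (nondom G).ncard ^ 3) ^ 2 := Nat.pow_le_pow_left hn 2
        _ = (d ^ 2 * (nondom G).ncard ^ 2) ^ 3 := by ring
    exact le_of_pow_le_pow_left₀ (by norm_num) (Nat.zero_le _) h1
  · push Not at hsm
    refine dom G ?_ k hk
    intro k' hk'
    have hcard : Fintype.card ↥(nondom G) = (nondom G).ncard := by
      rw [Set.ncard_eq_toFinset_card', Set.toFinset_card]
    obtain ⟨A, s, hs, hcol⟩ := (Pool.Agent.W880.RG.TB2 Pool.Agent.W790.RG.TB1) _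
      (G.induce (nondom G))
    refine (MAIN34 _ (G.induce (nondom G)) d D hd (by omega) ?_ ?_ A s hs).mono ?_
    · intro x
      rw [ndeg_induce]
      exact hdeg x.1 x.2
    · rw [hcard]
      exact hn
    · by_contra h
      exact hk' (hcol.mono (by omega))

end Pool.Agent.TH446.HN
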