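import Pool.Agent.TH446.HN.Pair

/-! Few vertices outside a dominating clique, many helpers. -/

set_option autoImplicit false

namespace Pool.Agent.TH446.HN

open Finset H331HC Pool.Agent.W292.RG

variable {V : Type} [Fintype V] [DecidableEq V]

/-- averaging: some `a ∈ U` has few non-neighbours in `J` -/
theorem avg (G : SimpleGraph V) (D : ℕ) [DecidableRel G.Adj] (hD : ∀ x, ndeg G x ≤ D)
    (U J : Finset V) (hU : U.Nonempty) :
    ∃ a ∈ U, U.card * (J.filter (fun j => Gᶜ.Adj a j)).card ≤ J.card * D := by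
  have hNc := nbr_card G D hD
  obtain ⟨a, ha, hmin⟩ := exists_min_image U (fun a => (J.filter (fun j => Gᶜ.Adj a j)).card) hU
  refine ⟨a, ha, ?_⟩
  calc U.card * (J.filter (fun j => Gᶜ.Adj a j)).card
      = ∑ _x ∈ U, (J.filter (fun j => Gᶜ.Adj a j)).card := by rw [sum_const, smul_eq_mul]
    _ ≤ ∑ x ∈ U, (J.filter (fun j => Gᶜ.Adj x j)).card := sum_le_sum hmin
    _ = ∑ x ∈ U, ∑ j ∈ J, (if Gᶜ.Adj x j then 1 else 0) := by
        refine sum_congr rfl fun x _ => ?_
        rw [card_filter]
    _ = ∑ j ∈ J, ∑ x ∈ U, (if Gᶜ.Adj x j then 1 else 0) := sum_comm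
    _ ≤ ∑ _j ∈ J, D := by
        refine sum_le_sum fun j _ => ?_
        rw [← card_filter]
        refine le_trans (card_le_card ?_) (hNc j)
        intro x hx
        rw [mem_filter] at hx ⊢
        exact ⟨mem_univ _, hx.2.symm⟩
    _ = J.card * D := by rw [sum_const, smul_eq_mul]

/-- three helpers are enough -/
theorem three (G : SimpleGraph V) (D : ℕ) [DecidableRel G.Adj] (hD : ∀ x, ndeg G x ≤ D)
    (U J : Finset V) (hJ : J.card ≤ D) (hU : D ^ 4 < U.card ^ 3) :
    ∃ h : Finset V, h ⊆ U ∧ h.card ≤ 3 ∧ ∀ j ∈ J, ∃ a ∈ h, ¬ Gᶜ.Adj a j := by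
  have hUn : U.Nonempty := by
    rw [← card_pos]
    by_contra h
    have : U.card = 0 := by omega
    rw [this] at hU
    simp at hU
  obtain ⟨a, ha, h1⟩ := avg G D hD U J hUn
  set J1 := J.filter (fun j => Gᶜ.Adj a j) with hJ1
  obtain ⟨b, hb, h2⟩ := avg G D hD U J1 hUn
  set J2 := J1.filter (fun j => Gᶜ.Adj b j) with hJ2
  obtain ⟨c, hc, h3⟩ := avg G D hD U J2 hUn
  set J3 := J2.filter (fun j => Gᶜ.Adj c j) with hJ3
  have h4 : U.card ^ 3 * J3.card ≤ D ^ 4 := by
    calc U.card ^ 3 * J3.card = U.card ^ 2 * (U.card * J3.card) := by ring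
      _ ≤ U.card ^ 2 * (J2.card * D) := Nat.mul_le_mul_left _ h3
      _ = U.card * D * (U.card * J2.card) := by ring
      _ ≤ U.card * D * (J1.card * D) := Nat.mul_le_mul_left _ h2
      _ = D ^ 2 * (U.card * J1.card) := by ring
      _ ≤ D ^ 2 * (J.card * D) := Nat.mul_le_mul_left _ h1
      _ ≤ D ^ 2 * (D * D) := Nat.mul_le_mul_left _ (Nat.mul_le_mul_right _ hJ)
      _ = D ^ 4 := by ring
  have h5 : J3 = ∅ := by
    rw [← card_eq_zero]
    by_contra h
    have : 1 ≤ J3.card := by omega
    have : U.card ^ 3 ≤ U.card ^ 3 * J3.card := Nat.le_mul_of_pos_right _ (by omega)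
    omega
  refine ⟨{a, b, c}, ?_, ?_, ?_⟩
  · intro x hx
    simp only [mem_insert, mem_singleton] at hx
    rcases hx with rfl | rfl | rfl <;> assumption
  · exact card_le_three
  · intro j hj
    by_contra hcon
    push Not at hcon
    have h6 : j ∈ J3 := by
      rw [hJ3, mem_filter, hJ2, mem_filter, hJ1, mem_filter]
      exact ⟨⟨⟨hj, hcon a (by simp)⟩, hcon b (by simp)⟩, hcon c (by simp)⟩
    rw [h5] at h6
    simp at h6

/-- helpers for all vertices of `W₀` -/
theorem helpers (G : SimpleGraph V) (D : ℕ) (hD : ∀ x, ndeg G x ≤ D)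
    (W₀ A : Finset V) (hWA : Disjoint W₀ A) (m : ℕ)
    (hm : m + 3 * W₀.card + D ≤ A.card) (hm4 : D ^ 4 < m ^ 3) :
    ∃ h : V → Finset V, (∀ w ∈ W₀, h w ⊆ A ∧ (h w).card ≤ 3 ∧ (∀ a ∈ h w, G.Adj w a) ∧
      ∀ j ∈ W₀, j ≠ w → G.Adj w j ∨ ∃ a ∈ h w, G.Adj a j) ∧
      ∀ w ∈ W₀, ∀ w' ∈ W₀, w ≠ w' → Disjoint (h w) (h w') := by
  classical
  have hNc := nbr_card G D hD
  have key : ∀ W' ⊆ W₀, ∃ h : V → Finset V,
      (∀ w ∈ W', h w ⊆ A ∧ (h w).card ≤ 3 ∧ (∀ a ∈ h w, G.Adj w a) ∧
      ∀ j ∈ W₀, j ≠ w → G.Adj w j ∨ ∃ a ∈ h w, G.Adj a j) ∧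
      ∀ w ∈ W', ∀ w' ∈ W', w ≠ w' → Disjoint (h w) (h w') := by
    intro W'
    induction W' using Finset.induction_on with
    | empty => intro _; exact ⟨fun _ => ∅, by simp, by simp⟩
    | insert w W' hw ih =>
      intro hsub
      have hsub' : W' ⊆ W₀ := fun x hx => hsub (mem_insert_of_mem hx)
      have hwW : w ∈ W₀ := hsub (mem_insert_self _ _)
      obtain ⟨h, h1, h2⟩ := ih hsub'
      set U := (A \ W'.biUnion h) \ univ.filter (fun y => Gᶜ.Adj w y) with hU
      have hUm : m ≤ U.card := by
        have c1 : (W'.biUnion h).card ≤ 3 * W₀.card := by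
          refine card_biUnion_le.trans ?_
          calc ∑ u ∈ W', (h u).card ≤ ∑ _u ∈ W', 3 := sum_le_sum fun u hu => (h1 u hu).2.1
            _ = W'.card * 3 := by rw [sum_const, smul_eq_mul]
            _ ≤ 3 * W₀.card := by
                have := card_le_card hsub'
                omega
        have c2 := hNc w
        have c3 := le_card_sdiff (W'.biUnion h) A
        have c4 := le_card_sdiff (univ.filter (fun y => Gᶜ.Adj w y)) (A \ W'.biUnion h)
        rw [← hU] at c4
        omega
      obtain ⟨t, ht1, ht2, ht3⟩ := three G D hD U (univ.filter (fun y => Gᶜ.Adj w y)) (hNc w)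
        (hm4.trans_le (Nat.pow_le_pow_left hUm 3))
      have htU : ∀ a ∈ t, a ∈ A ∧ a ∉ W'.biUnion h ∧ ¬ Gᶜ.Adj w a := by
        intro a ha
        have := ht1 ha
        rw [hU, mem_sdiff, mem_sdiff, mem_filter] at this
        exact ⟨this.1.1, this.1.2, fun h' => this.2 ⟨mem_univ _, h'⟩⟩
      have hwA : ∀ u ∈ W₀, ∀ a ∈ A, a ≠ u := by
        intro u hu a ha hau
        exact Finset.disjoint_left.1 hWA hu (hau ▸ ha)
      refine ⟨fun u => if u = w then t else h u, ?_, ?_⟩
      · intro u hu
        by_cases huw : u = w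
        · subst huw
          simp only [if_true]
          refine ⟨fun a ha => (htU a ha).1, ht2, ?_, ?_⟩
          · intro a ha
            have := (htU a ha).2.2
            rw [SimpleGraph.compl_adj] at this
            by_contra hn
            exact this ⟨(hwA u hwW a (htU a ha).1).symm, hn⟩
          · intro j hj hju
            by_cases hadj : G.Adj u j
            · exact Or.inl hadj
            · right
              obtain ⟨a, ha, haj⟩ := ht3 j (mem_filter.2 ⟨mem_univ _,
                (SimpleGraph.compl_adj G _ _).2 ⟨hju.symm, hadj⟩⟩)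
              refine ⟨a, ha, ?_⟩
              rw [SimpleGraph.compl_adj] at haj
              by_contra hn
              exact haj ⟨hwA j hj a (htU a ha).1, hn⟩
        · simp only [if_neg huw]
          have huW : u ∈ W' := by
            rcases mem_insert.1 hu with h' | h'
            · exact absurd h' huw
            · exact h'
          exact h1 u huW
      · intro u hu u' hu' huu
        by_cases huw : u = w
        · subst huw
          have hu'w : u' ≠ u := huu.symm
          simp only [if_true, if_neg hu'w]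
          have huW : u' ∈ W' := by
            rcases mem_insert.1 hu' with h' | h'
            · exact absurd h' hu'w
            · exact h'
          rw [Finset.disjoint_left]
          intro a ha ha'
          exact (htU a ha).2.1 (mem_biUnion.2 ⟨u', huW, ha'⟩)
        · have huW : u ∈ W' := by
            rcases mem_insert.1 hu with h' | h'
            · exact absurd h' huw
            · exact h'
          by_cases hu'w : u' = w
          · subst hu'w
            simp only [if_true, if_neg huw]
            rw [Finset.disjoint_left]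
            intro a ha ha'
            exact (htU a ha').2.1 (mem_biUnion.2 ⟨u, huW, ha⟩)
          · simp only [if_neg huw, if_neg hu'w]
            have huW' : u' ∈ W' := by
              rcases mem_insert.1 hu' with h' | h'
              · exact absurd h' hu'w
              · exact h'
            exact h2 u huW u' huW' huu
  exact key W₀ (Subset.refl _)

/-- a star is connected -/
theorem star_connected (G : SimpleGraph V) (w : V) (h : Finset V) (hw : ∀ a ∈ h, G.Adj w a) :
    (G.induce (((insert w h : Finset V) : Set V))).Connected := by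
  have hmem : w ∈ ((insert w h : Finset V) : Set V) := by simp
  have : Nonempty (((insert w h : Finset V) : Set V)) := ⟨⟨w, hmem⟩⟩
  have key : ∀ u : ↥(((insert w h : Finset V) : Set V)),
      (G.induce (((insert w h : Finset V) : Set V))).Reachable ⟨w, hmem⟩ u := by
    rintro ⟨u, hu⟩
    have hu' : u ∈ insert w h := by simpa using hu
    rcases mem_insert.1 hu' with rfl | hu'
    · exact SimpleGraph.Reachable.refl _
    · refine SimpleGraph.Adj.reachable ?_
      exact hw u hu'
  exact ⟨fun a b => (key a).symm.trans (key b)⟩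

/-- A clique minor with `|S| + |W₀|` members. -/
theorem M3' (G : SimpleGraph V) (S W₀ A : Finset V) (D m : ℕ) (hD : ∀ x, ndeg G x ≤ D)
    (hSW : Disjoint S W₀) (hSA : Disjoint S A) (hWA : Disjoint W₀ A)
    (hS : ∀ s ∈ S, ∀ t ∈ S ∪ W₀, s ≠ t → G.Adj s t)
    (hm : m + 3 * W₀.card + D ≤ A.card) (hm4 : D ^ 4 < m ^ 3) :
    KMinor G (S.card + W₀.card) := by
  classical
  obtain ⟨h, h1, h2⟩ := helpers G D hD W₀ A hWA m hm hm4
  have hcard : Fintype.card {x // x ∈ S ∪ W₀} = S.card + W₀.card := by
    rw [Fintype.card_coe, card_union_of_disjoint hSW]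
  rw [← hcard]
  set B : V → Finset V := fun x => if x ∈ W₀ then insert x (h x) else {x} with hB
  have hBself : ∀ x, x ∈ B x := by
    intro x
    simp only [hB]
    split_ifs <;> simp
  have hBmem : ∀ x ∈ S ∪ W₀, ∀ a ∈ B x, a = x ∨ (x ∈ W₀ ∧ a ∈ h x) := by
    intro x _ a ha
    simp only [hB] at ha
    split_ifs at ha with hx
    · rcases mem_insert.1 ha with h' | h'
      · exact Or.inl h'
      · exact Or.inr ⟨hx, h'⟩
    · exact Or.inl (mem_singleton.1 ha)
  have hnA : ∀ x ∈ S ∪ W₀, x ∉ A := by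
    intro x hx hxA
    rcases mem_union.1 hx with h' | h'
    · exact Finset.disjoint_left.1 hSA h' hxA
    · exact Finset.disjoint_left.1 hWA h' hxA
  refine KMinor.of_family G (fun x => ((B x.1 : Finset V) : Set V)) ?_ ?_ ?_
  · rintro ⟨x, hx⟩
    show (G.induce ((B x : Finset V) : Set V)).Connected
    by_cases hxW : x ∈ W₀
    · have e : B x = insert x (h x) := by simp only [hB, if_pos hxW]
      rw [e]
      exact star_connected G x (h x) (h1 x hxW).2.2.1
    · have e : B x = insert x ∅ := by simp only [hB, if_neg hxW]; rfl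
      rw [e]
      exact star_connected G x ∅ (by simp)
  · rintro ⟨x, hx⟩ ⟨y, hy⟩ hxy
    have hne : x ≠ y := fun h' => hxy (Subtype.ext h')
    rw [Finset.disjoint_coe, Finset.disjoint_left]
    intro a ha hb
    rcases hBmem x hx a ha with rfl | ⟨hxW, hax⟩ <;> rcases hBmem y hy a hb with h' | ⟨hyW, hay⟩
    · exact hne h'
    · exact hnA _ hx ((h1 y hyW).1 hay)
    · subst h'
      exact hnA _ hy ((h1 x hxW).1 hax)
    · exact Finset.disjoint_left.1 (h2 x hxW y hyW hne) hax hay
  · rintro ⟨x, hx⟩ ⟨y, hy⟩ hxy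
    have hne : x ≠ y := fun h' => hxy (Subtype.ext h')
    show ∃ u ∈ ((B x : Finset V) : Set V), ∃ v ∈ ((B y : Finset V) : Set V), G.Adj u v
    by_cases hxS : x ∈ S
    · exact ⟨x, hBself x, y, hBself y, hS x hxS y hy hne⟩
    by_cases hyS : y ∈ S
    · exact ⟨x, hBself x, y, hBself y, (hS y hyS x hx hne.symm).symm⟩
    have hxW : x ∈ W₀ := (mem_union.1 hx).resolve_left hxS
    have hyW : y ∈ W₀ := (mem_union.1 hy).resolve_left hyS
    rcases (h1 x hxW).2.2.2 y hyW hne.symm with h' | ⟨a, ha, h'⟩
    · exact ⟨x, hBself x, y, hBself y, h'⟩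
    · refine ⟨a, ?_, y, hBself y, h'⟩
      simp only [hB, if_pos hxW]
      simp [ha]

end Pool.Agent.TH446.HN
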