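import Mathlib

/-! The lopsided local lemma in a finite set with the counting measure, and its hypothesis for
perfect matchings (fixed point free involutions) of a finite set. -/

set_option autoImplicit false

namespace Pool.Agent.TH446.HN

open Finset

section Abstract

variable {α ι : Type*} [DecidableEq ι]

/-- members of `Ω` that avoid all events of `S` -/
noncomputable def Av (Ω : Finset α) (A : ι → α → Prop) (S : Finset ι) : Finset α := by
  classical exact Ω.filter (fun f => ∀ e ∈ S, ¬ A e f)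

/-- members of `Ω` that avoid all events of `S` and lie in `e` -/
noncomputable def AvIn (Ω : Finset α) (A : ι → α → Prop) (e : ι) (S : Finset ι) : Finset α := by
  classical exact Ω.filter (fun f => A e f ∧ ∀ e ∈ S, ¬ A e f)

theorem mem_Av {Ω : Finset α} {A : ι → α → Prop} {S : Finset ι} {f : α} :
    f ∈ Av Ω A S ↔ f ∈ Ω ∧ ∀ e ∈ S, ¬ A e f := by
  classical
  unfold Av
  rw [mem_filter]

theorem mem_AvIn {Ω : Finset α} {A : ι → α → Prop} {e : ι} {S : Finset ι} {f : α} :
    f ∈ AvIn Ω A e S ↔ f ∈ Ω ∧ A e f ∧ ∀ e ∈ S, ¬ A e f := by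
  classical
  unfold AvIn
  rw [mem_filter]

theorem Av_insert (Ω : Finset α) (A : ι → α → Prop) (S : Finset ι) (e : ι) :
    ((Av Ω A S).card : ℝ) = (Av Ω A (insert e S)).card + (AvIn Ω A e S).card := by
  classical
  have h : Av Ω A S = Av Ω A (insert e S) ∪ AvIn Ω A e S := by
    ext f
    rw [mem_union, mem_Av, mem_Av, mem_AvIn]
    constructor
    · rintro ⟨h1, h2⟩
      by_cases h : A e f
      · exact Or.inr ⟨h1, h, h2⟩
      · refine Or.inl ⟨h1, fun e' he' => ?_⟩
        rcases mem_insert.1 he' with rfl | he'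
        · exact h
        · exact h2 e' he'
    · rintro (⟨h1, h2⟩ | ⟨h1, _, h2⟩)
      · exact ⟨h1, fun e' he' => h2 e' (mem_insert_of_mem he')⟩
      · exact ⟨h1, h2⟩
  have hd : Disjoint (Av Ω A (insert e S)) (AvIn Ω A e S) := by
    rw [Finset.disjoint_left]
    intro f hf hf'
    rw [mem_Av] at hf
    rw [mem_AvIn] at hf'
    exact hf.2 e (mem_insert_self _ _) hf'.2.1
  rw [h, card_union_of_disjoint hd]
  push_cast
  rfl

theorem AvIn_mono (Ω : Finset α) (A : ι → α → Prop) (e : ι) {S T : Finset ι} (h : S ⊆ T) :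
    ((AvIn Ω A e T).card : ℝ) ≤ (AvIn Ω A e S).card := by
  have : AvIn Ω A e T ⊆ AvIn Ω A e S := by
    intro f hf
    rw [mem_AvIn] at hf ⊢
    exact ⟨hf.1, hf.2.1, fun e' he' => hf.2.2 e' (h he')⟩
  exact_mod_cast card_le_card this

/-- removing the events of `T` one after the other -/
theorem Av_union_ge (Ω : Finset α) (A : ι → α → Prop) (S T : Finset ι) :
    ((Av Ω A S).card : ℝ) - ∑ e ∈ T, ((AvIn Ω A e S).card : ℝ) ≤ (Av Ω A (S ∪ T)).card := by
  classical
  induction T using Finset.induction_on with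
  | empty => simp
  | insert e T he ih =>
    rw [sum_insert he]
    have h1 := Av_insert Ω A (S ∪ T) e
    have h2 : S ∪ insert e T = insert e (S ∪ T) := by
      ext x; simp only [mem_union, mem_insert]; tauto
    rw [h2]
    have h3 := AvIn_mono Ω A e (subset_union_left (s₁ := S) (s₂ := T))
    linarith

/-- The lopsided local lemma. -/
theorem lll (Ω : Finset α) (A : ι → α → Prop) (I : Finset ι) (nb : ι → ι → Prop) (p : ι → ℝ)
    (hΩ : Ω.Nonempty) (hp : ∀ e ∈ I, 0 ≤ p e) (hp4 : ∀ e ∈ I, p e ≤ 1 / 4)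
    (hlop : ∀ e ∈ I, ∀ S ⊆ I, (∀ e' ∈ S, ¬ nb e e') →
      ((AvIn Ω A e S).card : ℝ) ≤ p e * (Av Ω A S).card)
    (hsum : ∀ e ∈ I, ∀ T ⊆ I, (∀ e' ∈ T, nb e e') → ∑ e' ∈ T, p e' ≤ 1 / 4) :
    ∃ f ∈ Ω, ∀ e ∈ I, ¬ A e f := by
  classical
  have key : ∀ n : ℕ, ∀ S ⊆ I, S.card = n → ∀ e ∈ I,
      ((AvIn Ω A e S).card : ℝ) ≤ 2 * p e * (Av Ω A S).card := by
    intro n
    induction n using Nat.strong_induction_on with
    | _ n ih =>
      intro S hS hn e he
      set S1 := S.filter (fun e' => nb e e') with hS1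
      set S2 := S.filter (fun e' => ¬ nb e e') with hS2
      have hU : S2 ∪ S1 = S := by
        rw [union_comm, hS1, hS2]
        exact Finset.filter_union_filter_not_eq _ _
      have h2S : S2 ⊆ S := filter_subset _ _
      have h1S : S1 ⊆ S := filter_subset _ _
      have a1 := AvIn_mono Ω A e h2S
      have a2 := hlop e he S2 (h2S.trans hS) (fun e' he' => (mem_filter.1 he').2)
      have a3 := Av_union_ge Ω A S2 S1
      rw [hU] at a3
      have hpe := hp e he
      by_cases hemp : S1 = ∅
      · rw [hemp, sum_empty] at a3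
        have : (0 : ℝ) ≤ (Av Ω A S).card := by positivity
        nlinarith
      · have hlt : S2.card < n := by
          rw [← hn]
          refine card_lt_card ?_
          rw [Finset.ssubset_iff_subset_ne]
          refine ⟨h2S, fun h => hemp ?_⟩
          rw [hS1, filter_eq_empty_iff]
          intro x hx
          rw [← h, hS2, mem_filter] at hx
          exact hx.2
        have a4 : ∑ e' ∈ S1, ((AvIn Ω A e' S2).card : ℝ) ≤
            ∑ e' ∈ S1, 2 * p e' * (Av Ω A S2).card :=
          sum_le_sum fun e' he' => ih _ hlt S2 (h2S.trans hS) rfl e' (hS (h1S he'))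
        have a5 : ∑ e' ∈ S1, 2 * p e' * ((Av Ω A S2).card : ℝ) =
            2 * (Av Ω A S2).card * ∑ e' ∈ S1, p e' := by
          rw [mul_sum]
          exact sum_congr rfl fun _ _ => by ring
        have a6 := hsum e he S1 (h1S.trans hS) (fun e' he' => (mem_filter.1 he').2)
        have a7 : (0 : ℝ) ≤ (Av Ω A S2).card := by positivity
        have a8 : 2 * ((Av Ω A S2).card : ℝ) * ∑ e' ∈ S1, p e' ≤
            2 * ((Av Ω A S2).card : ℝ) * (1 / 4) :=
          mul_le_mul_of_nonneg_left a6 (by positivity)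
        have a9 : (Av Ω A S2).card ≤ 2 * ((Av Ω A S).card : ℝ) := by linarith
        calc ((AvIn Ω A e S).card : ℝ) ≤ p e * (Av Ω A S2).card := a1.trans a2
          _ ≤ p e * (2 * ((Av Ω A S).card : ℝ)) := mul_le_mul_of_nonneg_left a9 hpe
          _ = _ := by ring
  have pos : ∀ S ⊆ I, (0 : ℝ) < (Av Ω A S).card := by
    intro S
    induction S using Finset.induction_on with
    | empty =>
      intro _
      have : Av Ω A (∅ : Finset ι) = Ω := by
        ext f
        rw [mem_Av]
        simp
      rw [this]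
      exact_mod_cast card_pos.2 hΩ
    | insert e S he ih =>
      intro hS
      have h1 := ih (fun x hx => hS (mem_insert_of_mem hx))
      have h2 := Av_insert Ω A S e
      have heI := hS (mem_insert_self e S)
      have h3 := key _ S (fun x hx => hS (mem_insert_of_mem hx)) rfl e heI
      have h4 := hp4 e heI
      have h5 : 2 * p e * ((Av Ω A S).card : ℝ) ≤ 1 / 2 * (Av Ω A S).card := by
        apply mul_le_mul_of_nonneg_right _ h1.le
        linarith
      linarith
  have h := pos I (Subset.refl _)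
  have h' : 0 < (Av Ω A I).card := by exact_mod_cast h
  obtain ⟨f, hf⟩ := card_pos.1 h'
  rw [mem_Av] at hf
  exact ⟨f, hf.1, hf.2⟩

end Abstract

section Matchings

variable {V : Type*} [Fintype V] [DecidableEq V]

/-- the perfect matchings of `W` as involutions of `V` that fix exactly the points outside `W` -/
noncomputable def PM (W : Finset V) : Finset (V → V) := by
  classical exact univ.filter (fun f => (∀ x, f (f x) = x) ∧ (∀ x, x ∉ W → f x = x) ∧
    ∀ x ∈ W, f x ≠ x)

theorem mem_PM {W : Finset V} {f : V → V} :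
    f ∈ PM W ↔ (∀ x, f (f x) = x) ∧ (∀ x, x ∉ W → f x = x) ∧ ∀ x ∈ W, f x ≠ x := by
  classical
  unfold PM
  rw [mem_filter]
  simp

theorem PM_maps {W : Finset V} {f : V → V} (hf : f ∈ PM W) {x : V} (hx : x ∈ W) : f x ∈ W := by
  rw [mem_PM] at hf
  by_contra h
  have := hf.2.1 _ h
  rw [hf.1] at this
  exact hf.2.2 x hx this.symm

/-- conjugation by a transposition -/
def conj (b c : V) (f : V → V) : V → V := fun x => Equiv.swap b c (f (Equiv.swap b c x))

theorem conj_conj (b c : V) (f : V → V) : conj b c (conj b c f) = f := by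
  funext x
  simp [conj]

theorem conj_mem {W : Finset V} {b c : V} (hb : b ∈ W) (hc : c ∈ W) {f : V → V} (hf : f ∈ PM W) :
    conj b c f ∈ PM W := by
  rw [mem_PM] at hf ⊢
  have hW : ∀ x, Equiv.swap b c x ∈ W ↔ x ∈ W := by
    intro x
    rcases eq_or_ne x b with rfl | h1
    · rw [Equiv.swap_apply_left]; exact ⟨fun _ => hb, fun _ => hc⟩
    rcases eq_or_ne x c with rfl | h2
    · rw [Equiv.swap_apply_right]; exact ⟨fun _ => hc, fun _ => hb⟩
    rw [Equiv.swap_apply_of_ne_of_ne h1 h2]
  refine ⟨fun x => ?_, fun x hx => ?_, fun x hx h => ?_⟩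
  · simp only [conj, Equiv.swap_apply_self]
    rw [hf.1]
    simp
  · simp only [conj]
    rw [hf.2.1 _ (fun h => hx ((hW x).1 h))]
    simp
  · simp only [conj] at h
    have h2 : f (Equiv.swap b c x) = Equiv.swap b c x := by
      have := congrArg (Equiv.swap b c) h
      rwa [Equiv.swap_apply_self] at this
    exact hf.2.2 _ ((hW x).2 hx) h2

/-- `f` maps both `s` and `t` to themselves -/
def Holds (e : Finset V × Finset V) (f : V → V) : Prop :=
  (∀ x ∈ e.1, f x ∈ e.1) ∧ ∀ x ∈ e.2, f x ∈ e.2

theorem conj_holds {W : Finset V} {a b c : V} {f : V → V} (hf : f ∈ PM W) (hab : f a = b)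
    (hac : a ≠ c) (hba : b ≠ a) {s : Finset V} (has : a ∉ s) (hbs : b ∉ s)
    (h : ∀ x ∈ s, conj b c f x ∈ s) : ∀ x ∈ s, f x ∈ s := by
  rw [mem_PM] at hf
  have hcs : c ∉ s := by
    intro hc
    have h1 := h c hc
    simp only [conj, Equiv.swap_apply_right] at h1
    have h2 : f b = a := by rw [← hab, hf.1]
    rw [h2, Equiv.swap_apply_of_ne_of_ne hba.symm hac] at h1
    exact has h1
  intro x hx
  have hxb : x ≠ b := fun h' => hbs (h' ▸ hx)
  have hxc : x ≠ c := fun h' => hcs (h' ▸ hx)
  have h1 := h x hx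
  simp only [conj, Equiv.swap_apply_of_ne_of_ne hxb hxc] at h1
  rcases eq_or_ne (f x) b with h2 | h2
  · rw [h2, Equiv.swap_apply_left] at h1
    exact absurd h1 hcs
  rcases eq_or_ne (f x) c with h3 | h3
  · rw [h3, Equiv.swap_apply_right] at h1
    exact absurd h1 hbs
  rwa [Equiv.swap_apply_of_ne_of_ne h2 h3] at h1

/-- the matchings which map `k` to `g k` for `k ∈ K` and avoid the events of `S` -/
noncomputable def FK (W : Finset V) (S : Finset (Finset V × Finset V)) (K : Finset V)
    (g : V → V) : Finset (V → V) := by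
  classical exact univ.filter (fun f : V → V => f ∈ PM W ∧ (∀ k ∈ K, f k = g k) ∧
    ∀ e ∈ S, ¬ Holds e f)

/-- those which also map `a` to `b` -/
noncomputable def FKab (W : Finset V) (S : Finset (Finset V × Finset V)) (K : Finset V)
    (g : V → V) (a b : V) : Finset (V → V) := by
  classical exact univ.filter (fun f : V → V => f ∈ PM W ∧ f a = b ∧ (∀ k ∈ K, f k = g k) ∧
    ∀ e ∈ S, ¬ Holds e f)

theorem mem_FK {W : Finset V} {S : Finset (Finset V × Finset V)} {K : Finset V} {g : V → V}
    {f : V → V} : f ∈ FK W S K g ↔ f ∈ PM W ∧ (∀ k ∈ K, f k = g k) ∧ ∀ e ∈ S, ¬ Holds e f := by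
  classical
  unfold FK
  rw [mem_filter]
  simp

theorem mem_FKab {W : Finset V} {S : Finset (Finset V × Finset V)} {K : Finset V} {g : V → V}
    {a b : V} {f : V → V} : f ∈ FKab W S K g a b ↔ f ∈ PM W ∧ f a = b ∧ (∀ k ∈ K, f k = g k) ∧
      ∀ e ∈ S, ¬ Holds e f := by
  classical
  unfold FKab
  rw [mem_filter]
  simp

/-- One more pair: among the matchings which map `k` to `g k` for `k ∈ K` and avoid the events of
`S`, at most the fraction `1 / (|W| - 1 - |K|)` maps `a` to `b`. -/
theorem one_step (W : Finset V) (S : Finset (Finset V × Finset V)) (K : Finset V) (g : V → V)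
    (hKg : ∀ k ∈ K, g k ∈ K) (hKW : K ⊆ W) {a b : V} (ha : a ∈ W) (hb : b ∈ W) (hab : a ≠ b)
    (haK : a ∉ K) (hbK : b ∉ K)
    (hS : ∀ e ∈ S, a ∉ e.1 ∧ b ∉ e.1 ∧ a ∉ e.2 ∧ b ∉ e.2) :
    ((W.card : ℝ) - 1 - K.card) * ((FKab W S K g a b).card : ℝ) ≤ ((FK W S K g).card : ℝ) := by
  classical
  set C := W \ insert a K with hC
  have hCc : (C.card : ℝ) = (W.card : ℝ) - 1 - K.card := by
    have h1 : insert a K ⊆ W := by
      intro x hx
      rcases mem_insert.1 hx with rfl | hx
      · exact ha
      · exact hKW hx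
    have h2 := card_sdiff_add_card_eq_card h1
    rw [card_insert_of_notMem haK] at h2
    have h3 : ((C.card + (K.card + 1) : ℕ) : ℝ) = (W.card : ℝ) := by
      rw [hC]; exact_mod_cast h2
    push_cast at h3
    linarith
  have h1 : (FK W S K g).card = ∑ c ∈ C, (FKab W S K g a c).card := by
    have := Finset.card_eq_sum_card_fiberwise (s := FK W S K g) (t := C) (f := fun f => f a) (by
        intro f hf
        rw [mem_coe, mem_FK] at hf
        rw [mem_coe, hC, mem_sdiff, mem_insert]
        refine ⟨PM_maps hf.1 ha, ?_⟩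
        rintro (h | h)
        · exact (mem_PM.1 hf.1).2.2 a ha h
        · have h2 := hKg _ h
          rw [← hf.2.1 _ h, (mem_PM.1 hf.1).1] at h2
          exact haK h2)
    rw [this]
    refine sum_congr rfl fun c _ => ?_
    congr 1
    ext f
    rw [mem_filter, mem_FK, mem_FKab]
    tauto
  have h2 : ∀ c ∈ C, (FKab W S K g a b).card ≤ (FKab W S K g a c).card := by
    intro c hc
    rw [hC, mem_sdiff, mem_insert, not_or] at hc
    refine card_le_card_of_injOn (conj b c) ?_ ?_
    · intro f hf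
      rw [mem_coe, mem_FKab] at hf
      obtain ⟨hf1, hf2, hf3, hf4⟩ := hf
      rw [mem_coe, mem_FKab]
      refine ⟨conj_mem hb hc.1 hf1, ?_, ?_, ?_⟩
      · simp only [conj]
        rw [Equiv.swap_apply_of_ne_of_ne hab (fun h => hc.2.1 h.symm), hf2,
          Equiv.swap_apply_left]
      · intro k hk
        simp only [conj]
        have k1 : k ≠ b := by rintro rfl; exact hbK hk
        have k2 : k ≠ c := by rintro rfl; exact hc.2.2 hk
        have k3 : g k ≠ b := by intro h; exact hbK (h ▸ hKg k hk)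
        have k4 : g k ≠ c := by intro h; exact hc.2.2 (h ▸ hKg k hk)
        rw [Equiv.swap_apply_of_ne_of_ne k1 k2, hf3 k hk, Equiv.swap_apply_of_ne_of_ne k3 k4]
      · intro e he hh
        obtain ⟨e1, e2, e3, e4⟩ := hS e he
        refine hf4 e he ⟨?_, ?_⟩
        · exact conj_holds hf1 hf2 (fun h => hc.2.1 h.symm) hab.symm e1 e2 hh.1
        · exact conj_holds hf1 hf2 (fun h => hc.2.1 h.symm) hab.symm e3 e4 hh.2
    · intro f _ f' _ h
      have := congrArg (conj b c) h
      rwa [conj_conj, conj_conj] at this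
  rw [← hCc, h1]
  have h3 : ∑ _c ∈ C, (FKab W S K g a b).card ≤ ∑ c ∈ C, (FKab W S K g a c).card := sum_le_sum h2
  rw [sum_const, smul_eq_mul] at h3
  exact_mod_cast h3

end Matchings

end Pool.Agent.TH446.HN
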