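import Pool.Agent.TH446.HN.Per
import Pool.Agent.W22.RGM0

/-! Conflict free perfect pairings when every vertex has at most `c n ^ (3 / 4)` non-neighbours. -/

set_option autoImplicit false

namespace Pool.Agent.TH446.HN

open Finset H331HC Pool.Agent.W292.RG

theorem nbr_card {V : Type} [Fintype V] [DecidableEq V] (G : SimpleGraph V) (D : ℕ)
    [DecidableRel G.Adj] (hD : ∀ x, ndeg G x ≤ D) :
    ∀ x, (univ.filter (fun y => Gᶜ.Adj x y)).card ≤ D := by
  intro x
  have := hD x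
  unfold ndeg at this
  rwa [Set.ncard_eq_toFinset_card' {y | Gᶜ.Adj x y}, Set.toFinset_ofPred] at this

/-- few vertices have many common non-neighbours with `x` -/
theorem codeg_count {V : Type} [Fintype V] [DecidableEq V] (G : SimpleGraph V) (D : ℕ)
    [DecidableRel G.Adj] (hD : ∀ x, ndeg G x ≤ D) (W : Finset V) (κ : ℕ) (x : V) :
    (κ + 1) * (W.filter (fun y => κ < (W.filter (fun z => Gᶜ.Adj x z ∧ Gᶜ.Adj y z)).card)).card ≤
      D * D := by
  have hNc := nbr_card G D hD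
  set X : Finset V := W.filter (fun y => κ < (W.filter (fun z => Gᶜ.Adj x z ∧ Gᶜ.Adj y z)).card)
    with hX
  calc (κ + 1) * X.card = ∑ y ∈ X, (κ + 1) := by rw [sum_const, smul_eq_mul, mul_comm]
    _ ≤ ∑ y ∈ X, (W.filter (fun z => Gᶜ.Adj x z ∧ Gᶜ.Adj y z)).card :=
        sum_le_sum (fun y hy => (mem_filter.1 hy).2)
    _ ≤ ∑ y, (W.filter (fun z => Gᶜ.Adj x z ∧ Gᶜ.Adj y z)).card :=
        sum_le_sum_of_subset (subset_univ _)
    _ ≤ ∑ y, ∑ z ∈ univ.filter (fun z => Gᶜ.Adj x z), (if Gᶜ.Adj z y then 1 else 0) := by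
        refine sum_le_sum (fun y _ => ?_)
        rw [← Finset.card_filter, Finset.filter_filter]
        refine card_le_card ?_
        intro z hz
        simp only [mem_filter, mem_univ, true_and] at hz ⊢
        exact ⟨hz.2.1, hz.2.2.symm⟩
    _ = ∑ z ∈ univ.filter (fun z => Gᶜ.Adj x z), ∑ y, (if Gᶜ.Adj z y then 1 else 0) :=
        sum_comm
    _ = ∑ z ∈ univ.filter (fun z => Gᶜ.Adj x z), (univ.filter (fun y => Gᶜ.Adj z y)).card := by
        refine sum_congr rfl (fun z _ => ?_)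
        rw [← Finset.card_filter]
    _ ≤ ∑ z ∈ univ.filter (fun z => Gᶜ.Adj x z), D := sum_le_sum (fun z _ => hNc z)
    _ = (univ.filter (fun z => Gᶜ.Adj x z)).card * D := by rw [sum_const, smul_eq_mul]
    _ ≤ D * D := Nat.mul_le_mul_right _ (hNc x)

/-- the arithmetic of the local lemma -/
theorem arith_lll (w D b κ B : ℕ) (h1 : 49200 * D ^ 4 ≤ w ^ 3) (h2 : 96 * (D + b + 1) ≤ w)
    (h3 : 3200 ≤ w) (hκ : κ * w ≤ 32 * (D * D)) (hB : 32 * B ≤ 32 * (D + b) + w) :
    (B : ℝ) / ((w : ℝ) - 1) + κ * (κ - 1) / ((w : ℝ) - 3) ≤ 1 / 16 := by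
  have g1 : (49200 : ℝ) * (D : ℝ) ^ 4 ≤ (w : ℝ) ^ 3 := by exact_mod_cast h1
  have g2 : (96 : ℝ) * (D + b + 1) ≤ w := by exact_mod_cast h2
  have g3 : (3200 : ℝ) ≤ w := by exact_mod_cast h3
  have gκ : (κ : ℝ) * w ≤ 32 * (D * D) := by exact_mod_cast hκ
  have gB : (32 : ℝ) * B ≤ 32 * (D + b) + w := by exact_mod_cast hB
  have hw1 : (0 : ℝ) < (w : ℝ) - 1 := by linarith
  have hw3 : (0 : ℝ) < (w : ℝ) - 3 := by linarith
  have hw0 : (0 : ℝ) < (w : ℝ) := by linarith
  have k0 : (0 : ℝ) ≤ κ := by positivity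
  have a1 : (B : ℝ) / ((w : ℝ) - 1) ≤ 1 / 24 := by
    rw [div_le_div_iff₀ hw1 (by norm_num)]
    linarith
  have a2 : (κ : ℝ) ^ 2 * (w : ℝ) ^ 2 ≤ 1024 * (D : ℝ) ^ 4 := by
    have : ((κ : ℝ) * w) ^ 2 ≤ (32 * ((D : ℝ) * D)) ^ 2 := pow_le_pow_left₀ (by positivity) gκ 2
    calc (κ : ℝ) ^ 2 * (w : ℝ) ^ 2 = ((κ : ℝ) * w) ^ 2 := by ring
      _ ≤ (32 * ((D : ℝ) * D)) ^ 2 := this
      _ = 1024 * (D : ℝ) ^ 4 := by ring
  have a3 : 49200 * ((κ : ℝ) ^ 2) ≤ 1024 * w := by
    have : (49200 * (κ : ℝ) ^ 2) * (w : ℝ) ^ 2 ≤ (1024 * w) * (w : ℝ) ^ 2 := by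
      calc (49200 * (κ : ℝ) ^ 2) * (w : ℝ) ^ 2 = 49200 * ((κ : ℝ) ^ 2 * (w : ℝ) ^ 2) := by ring
        _ ≤ 49200 * (1024 * (D : ℝ) ^ 4) := mul_le_mul_of_nonneg_left a2 (by norm_num)
        _ = 1024 * (49200 * (D : ℝ) ^ 4) := by ring
        _ ≤ 1024 * (w : ℝ) ^ 3 := mul_le_mul_of_nonneg_left g1 (by norm_num)
        _ = (1024 * w) * (w : ℝ) ^ 2 := by ring
    exact le_of_mul_le_mul_right this (by positivity)
  have a4 : (κ : ℝ) * (κ - 1) / ((w : ℝ) - 3) ≤ 1 / 48 := by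
    rw [div_le_div_iff₀ hw3 (by norm_num)]
    nlinarith
  linarith

/-- Conflict free perfect pairing of `W` with a prescribed property `P` of the pairs. -/
theorem pairing (V : Type) [Fintype V] [DecidableEq V] (G : SimpleGraph V) (W : Finset V)
    (D b : ℕ) (P : V → V → Prop) [DecidableRel P] (hD : ∀ x, ndeg G x ≤ D)
    (h1 : 49200 * D ^ 4 ≤ W.card ^ 3) (h2 : 96 * (D + b + 1) ≤ W.card) (h3 : 3200 ≤ W.card)
    (hW : Even W.card) (hPs : ∀ x y, P x y → P y x)
    (hPb : ∀ x ∈ W, (W.filter (fun y => ¬ P x y)).card ≤ b) :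
    ∃ f : V → V, (∀ x, f (f x) = x) ∧ (∀ x, x ∉ W → f x = x) ∧
      (∀ x ∈ W, f x ∈ W ∧ x ≠ f x ∧ G.Adj x (f x) ∧ P x (f x)) ∧
      (∀ x ∈ W, ∀ y ∈ W, ¬ QQ Gᶜ x (f x) y (f y)) := by
  classical
  have hNc := nbr_card G D hD
  set κ := 32 * (D * D) / W.card with hκ
  have hκw : κ * W.card ≤ 32 * (D * D) := Nat.div_mul_le_self _ _
  have hκ1 : 32 * (D * D) < W.card * (κ + 1) := Nat.lt_mul_div_succ _ (by omega)
  let R : V → V → Prop := fun x y => x ≠ y ∧ G.Adj x y ∧ P x y ∧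
    (W.filter (fun z => Gᶜ.Adj x z ∧ Gᶜ.Adj y z)).card ≤ κ
  have hRs : ∀ x y, R x y → R y x := by
    rintro x y ⟨h1, h2, h3, h4⟩
    refine ⟨h1.symm, h2.symm, hPs x y h3, ?_⟩
    have : W.filter (fun z => Gᶜ.Adj y z ∧ Gᶜ.Adj x z) =
        W.filter (fun z => Gᶜ.Adj x z ∧ Gᶜ.Adj y z) := by
      ext z; simp only [mem_filter]; tauto
    rw [this]; exact h4
  have hbad : ∀ x ∈ W, (W.filter (fun y => x ≠ y ∧ ¬ R x y)).card ≤ D + b + W.card / 32 := by
    intro x hx
    set X : Finset V := W.filter (fun y => κ < (W.filter (fun z => Gᶜ.Adj x z ∧ Gᶜ.Adj y z)).card)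
      with hX
    have g1 : W.filter (fun y => x ≠ y ∧ ¬ R x y) ⊆ (univ.filter (fun y => Gᶜ.Adj x y) ∪
        W.filter (fun y => ¬ P x y)) ∪ X := by
      intro y hy
      rw [mem_filter] at hy
      rw [mem_union, mem_union]
      by_cases h2 : G.Adj x y
      · by_cases h3 : P x y
        · right
          rw [hX, mem_filter]
          refine ⟨hy.1, ?_⟩
          by_contra h4
          exact hy.2.2 ⟨hy.2.1, h2, h3, not_lt.1 h4⟩
        · left; right
          exact mem_filter.2 ⟨hy.1, h3⟩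
      · left; left
        simp only [mem_filter, mem_univ, true_and]
        exact (SimpleGraph.compl_adj G _ _).2 ⟨hy.2.1, h2⟩
    have g3 := codeg_count G D hD W κ x
    rw [← hX] at g3
    have g4 : X.card ≤ W.card / 32 := by
      rw [Nat.le_div_iff_mul_le (by norm_num)]
      by_contra hcon
      push Not at hcon
      have e1 : W.card * (κ + 1) ≤ (X.card * 32) * (κ + 1) := Nat.mul_le_mul_right _ hcon.le
      have e2 : (X.card * 32) * (κ + 1) = 32 * ((κ + 1) * X.card) := by ring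
      omega
    have g5 := card_le_card g1
    have g6 := card_union_le (univ.filter (fun y => Gᶜ.Adj x y) ∪ W.filter (fun y => ¬ P x y)) X
    have g7 := card_union_le (univ.filter (fun y => Gᶜ.Adj x y)) (W.filter (fun y => ¬ P x y))
    have g8 := hNc x
    have g9 := hPb x hx
    omega
  obtain ⟨f, f1, f2, f3, f4⟩ := perfect Gᶜ R hRs W hW (by omega) (D + b + W.card / 32) κ hbad
    (fun x _ y _ hxy => hxy.2.2.2)
    (arith_lll W.card D b κ (D + b + W.card / 32) h1 h2 h3 hκw (by omega))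
  exact ⟨f, f1, f2, fun x hx => ⟨(f3 x hx).1, (f3 x hx).2.1, (f3 x hx).2.2.2.1,
    (f3 x hx).2.2.2.2.1⟩, f4⟩

/-- `K_{⌈n/2⌉}` minors: every vertex has at most `c n ^ (3 / 4)` non-neighbours. -/
theorem half34 (V : Type) [Fintype V] (G : SimpleGraph V) (D : ℕ)
    (hD : ∀ x, ndeg G x ≤ D) (hn : 50000 * D ^ 4 ≤ Fintype.card V ^ 3) :
    KMinor G ((Fintype.card V + 1) / 2) := by
  classical
  set n := Fintype.card V with hn'
  by_cases hsm : D ≤ 517
  · refine H331HC.half G D hD ?_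
    rw [← hn']
    have h1 : (169 * D ^ 3) ^ 3 ≤ (n ^ 2) ^ 3 := by
      calc (169 * D ^ 3) ^ 3 = 4826809 * D * D ^ 8 := by ring
        _ ≤ 4826809 * 517 * D ^ 8 := by gcongr
        _ ≤ 50000 ^ 2 * D ^ 8 := Nat.mul_le_mul_right _ (by norm_num)
        _ = (50000 * D ^ 4) ^ 2 := by ring
        _ ≤ (n ^ 3) ^ 2 := Nat.pow_le_pow_left hn 2
        _ = (n ^ 2) ^ 3 := by ring
    exact le_of_pow_le_pow_left₀ (by norm_num) (Nat.zero_le _) h1
  · push Not at hsm
    have h295 : 295 * D ≤ n := by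
      by_contra hcon
      push Not at hcon
      have e1 : n ^ 3 < (295 * D) ^ 3 := Nat.pow_lt_pow_left hcon (by norm_num)
      have e2 : (295 * D) ^ 3 ≤ 50000 * D ^ 4 := by
        calc (295 * D) ^ 3 = 25672375 * D ^ 3 := by ring
          _ ≤ (50000 * D) * D ^ 3 := Nat.mul_le_mul_right _ (by omega)
          _ = 50000 * D ^ 4 := by ring
      omega
    have hcube : 49200 * D ^ 4 ≤ (n - 1) ^ 3 := by
      have hn1 : 1 ≤ n := by omega
      have e0 : ((n - 1 : ℕ) : ℝ) = (n : ℝ) - 1 := by rw [Nat.cast_sub hn1]; simp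
      have e1 : (50000 : ℝ) * (D : ℝ) ^ 4 ≤ (n : ℝ) ^ 3 := by exact_mod_cast hn
      have e2 : (150000 : ℝ) ≤ n := by
        have : 150000 ≤ n := by omega
        exact_mod_cast this
      have e3 : (49200 : ℝ) * (D : ℝ) ^ 4 ≤ (((n - 1 : ℕ) : ℝ)) ^ 3 := by
        rw [e0]
        have e4 : (49200 : ℝ) * (D : ℝ) ^ 4 ≤ 49200 / 50000 * (n : ℝ) ^ 3 := by
          have := mul_le_mul_of_nonneg_left e1 (show (0 : ℝ) ≤ 49200 / 50000 by norm_num)
          calc (49200 : ℝ) * (D : ℝ) ^ 4 = 49200 / 50000 * (50000 * (D : ℝ) ^ 4) := by ring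
            _ ≤ _ := this
        have e5 : 49200 / 50000 * (n : ℝ) ^ 3 ≤ ((n : ℝ) - 1) ^ 3 := by
          have e6 : ((n : ℝ) - 1) ^ 3 = n ^ 3 - 3 * n ^ 2 + 3 * n - 1 := by ring
          rw [e6]
          have e7 : 3 * (n : ℝ) ^ 2 ≤ 800 / 50000 * (n : ℝ) ^ 3 := by
            have : (0 : ℝ) ≤ (n : ℝ) ^ 2 := by positivity
            nlinarith
          nlinarith
        exact e4.trans e5
      exact_mod_cast e3
    rcases Nat.even_or_odd n with he | ho
    · -- even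
      obtain ⟨f, f1, f2, f3, f4⟩ := pairing V G univ D 0 (fun _ _ => True) hD
        (by
          rw [card_univ, ← hn']
          exact hcube.trans (Nat.pow_le_pow_left (by omega) 3))
        (by rw [card_univ, ← hn']; omega) (by rw [card_univ, ← hn']; omega)
        (by rw [card_univ, ← hn']; exact he) (fun _ _ _ => trivial) (by simp)
      refine Pool.Agent.W22.RGM0.M0 V G ∅ univ f (by simp) (fun x hx => (f3 x hx).1)
        (fun x _ => f1 x) (fun x hx => (f3 x hx).2.2.1) (by simp) (by simp) f4 _ ?_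
      rw [card_univ, ← hn', card_empty]
      rw [Nat.even_iff] at he
      omega
    · -- odd
      have hpos : 0 < Fintype.card V := by omega
      obtain ⟨s⟩ := Fintype.card_pos_iff.1 hpos
      have hc : (univ.erase s : Finset V).card = n - 1 := by
        rw [card_erase_of_mem (mem_univ _), card_univ, ← hn']
      have ho' := Nat.odd_iff.1 ho
      obtain ⟨f, f1, f2, f3, f4⟩ := pairing V G (univ.erase s) D D
        (fun x y => ¬ (Gᶜ.Adj x s ∧ Gᶜ.Adj y s)) hD
        (by rw [hc]; exact hcube) (by rw [hc]; omega) (by rw [hc]; omega)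
        (by rw [hc, Nat.even_iff]; omega)
        (fun x y h h' => h ⟨h'.2, h'.1⟩)
        (by
          intro x _
          refine (card_le_card ?_).trans (nbr_card G D hD s)
          intro y hy
          rw [mem_filter, not_not] at hy
          rw [mem_filter]
          exact ⟨mem_univ _, hy.2.2.symm⟩)
      refine Pool.Agent.W22.RGM0.M0 V G {s} (univ.erase s) f (by simp) (fun x hx => (f3 x hx).1)
        (fun x _ => f1 x) (fun x hx => (f3 x hx).2.2.1) ?_ ?_ f4 _ ?_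
      · intro a ha b hb hab
        rw [mem_singleton] at ha hb
        exact absurd (ha.trans hb.symm) hab
      · intro x hx t ht
        rw [mem_singleton] at ht
        subst ht
        exact (f3 x hx).2.2.2
      · rw [card_singleton, hc]
        omega

end Pool.Agent.TH446.HN
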