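import Pool.Agent.TH446.HN.Loc
import Pool.Agent.H331R3.HCHalf

/-! Conflict free perfect matchings by the lopsided local lemma. -/

set_option autoImplicit false

namespace Pool.Agent.TH446.HN

open Finset H331HC

variable {V : Type*} [Fintype V] [DecidableEq V]

/-- some two elements of `s` are not related by `R` -/
def Bad (R : V → V → Prop) (s : Finset V) : Prop := ∃ x ∈ s, ∃ y ∈ s, x ≠ y ∧ ¬ R x y

/-- the first kind of events: a bad pair -/
noncomputable def I1 (R : V → V → Prop) (W : Finset V) : Finset (Finset V × Finset V) := by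
  classical exact ((W.powersetCard 2).filter (fun s => Bad R s)).image (fun s => (s, s))

/-- the second kind of events: two good pairs, completely joined in `H` -/
noncomputable def I2 (H : SimpleGraph V) (R : V → V → Prop) (W : Finset V) :
    Finset (Finset V × Finset V) := by
  classical exact ((W.powersetCard 2) ×ˢ (W.powersetCard 2)).filter (fun e =>
    ¬ Bad R e.1 ∧ ¬ Bad R e.2 ∧ ∀ x ∈ e.1, ∀ y ∈ e.2, H.Adj x y)

theorem mem_I1 {R : V → V → Prop} {W : Finset V} {e : Finset V × Finset V} :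
    e ∈ I1 R W ↔ e.1 = e.2 ∧ e.1 ⊆ W ∧ e.1.card = 2 ∧ Bad R e.1 := by
  classical
  unfold I1
  rw [mem_image]
  constructor
  · rintro ⟨s, hs, rfl⟩
    rw [mem_filter, mem_powersetCard] at hs
    exact ⟨rfl, hs.1.1, hs.1.2, hs.2⟩
  · rintro ⟨h1, h2, h3, h4⟩
    refine ⟨e.1, mem_filter.2 ⟨mem_powersetCard.2 ⟨h2, h3⟩, h4⟩, ?_⟩
    exact Prod.ext rfl h1

theorem mem_I2 {H : SimpleGraph V} {R : V → V → Prop} {W : Finset V}
    {e : Finset V × Finset V} :
    e ∈ I2 H R W ↔ (e.1 ⊆ W ∧ e.1.card = 2) ∧ (e.2 ⊆ W ∧ e.2.card = 2) ∧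
      ¬ Bad R e.1 ∧ ¬ Bad R e.2 ∧ ∀ x ∈ e.1, ∀ y ∈ e.2, H.Adj x y := by
  classical
  unfold I2
  rw [mem_filter, mem_product, mem_powersetCard, mem_powersetCard]
  tauto

/-- the weights -/
noncomputable def pw (W : Finset V) (e : Finset V × Finset V) : ℝ :=
  if e.1 = e.2 then 1 / ((W.card : ℝ) - 1) else 1 / (((W.card : ℝ) - 1) * ((W.card : ℝ) - 3))

theorem ne_of_I2 {H : SimpleGraph V} {R : V → V → Prop} {W : Finset V}
    {e : Finset V × Finset V} (he : e ∈ I2 H R W) : e.1 ≠ e.2 := by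
  rw [mem_I2] at he
  intro h
  obtain ⟨a, ha⟩ := card_pos.1 (show 0 < e.1.card by omega)
  exact (he.2.2.2.2 a ha a (h ▸ ha)).ne rfl

theorem disj_of_I2 {H : SimpleGraph V} {R : V → V → Prop} {W : Finset V}
    {e : Finset V × Finset V} (he : e ∈ I2 H R W) : Disjoint e.1 e.2 := by
  rw [mem_I2] at he
  rw [Finset.disjoint_left]
  intro a ha ha'
  exact (he.2.2.2.2 a ha a ha').ne rfl

theorem two_elems {s : Finset V} (h : s.card = 2) : ∃ a b, a ≠ b ∧ s = {a, b} := by
  obtain ⟨a, b, hab, rfl⟩ := card_eq_two.1 h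
  exact ⟨a, b, hab, rfl⟩

theorem holds_pair {W : Finset V} {f : V → V} (hf : f ∈ PM W) {a b : V}
    (ha : a ∈ W) (h : ∀ x ∈ ({a, b} : Finset V), f x ∈ ({a, b} : Finset V)) : f a = b := by
  have h1 := h a (mem_insert_self _ _)
  rw [mem_insert, mem_singleton] at h1
  rcases h1 with h1 | h1
  · exact absurd h1 ((mem_PM.1 hf).2.2 a ha)
  · exact h1

theorem lop (H : SimpleGraph V) (R : V → V → Prop) (W : Finset V) (hw : 4 ≤ W.card)
    (e : Finset V × Finset V) (he : e ∈ I1 R W ∪ I2 H R W)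
    (S : Finset (Finset V × Finset V))
    (hdis : ∀ e' ∈ S, Disjoint (e.1 ∪ e.2) (e'.1 ∪ e'.2)) :
    ((AvIn (PM W) Holds e S).card : ℝ) ≤ pw W e * (Av (PM W) Holds S).card := by
  classical
  have hw1 : (0 : ℝ) < (W.card : ℝ) - 1 := by
    have : (4 : ℝ) ≤ W.card := by exact_mod_cast hw
    linarith
  have hw3 : (0 : ℝ) < (W.card : ℝ) - 3 := by
    have : (4 : ℝ) ≤ W.card := by exact_mod_cast hw
    linarith
  have hAv : Av (PM W) Holds S = FK W S ∅ id := by
    ext f
    rw [mem_Av, mem_FK]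
    simp
  have hnot : ∀ x ∈ e.1 ∪ e.2, ∀ e' ∈ S, x ∉ e'.1 ∧ x ∉ e'.2 := by
    intro x hx e' he'
    have := Finset.disjoint_left.1 (hdis e' he') hx
    rw [mem_union, not_or] at this
    exact this
  rw [hAv]
  rcases mem_union.1 he with he | he
  · rw [mem_I1] at he
    obtain ⟨h1, h2, h3, -⟩ := he
    obtain ⟨a, b, hab, hs⟩ := two_elems h3
    have ha : a ∈ e.1 := by rw [hs]; simp
    have hb : b ∈ e.1 := by rw [hs]; simp
    have key := one_step W S ∅ id (by simp) (by simp) (h2 ha) (h2 hb) hab (by simp) (by simp)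
      (fun e' he' => ⟨(hnot a (mem_union_left _ ha) e' he').1, (hnot b (mem_union_left _ hb) e' he').1,
        (hnot a (mem_union_left _ ha) e' he').2, (hnot b (mem_union_left _ hb) e' he').2⟩)
    have hsub : AvIn (PM W) Holds e S ⊆ FKab W S ∅ id a b := by
      intro f hf
      rw [mem_AvIn] at hf
      rw [mem_FKab]
      refine ⟨hf.1, ?_, by simp, hf.2.2⟩
      refine holds_pair hf.1 (h2 ha) ?_
      rw [← hs]
      exact hf.2.1.1
    have hle : ((AvIn (PM W) Holds e S).card : ℝ) ≤ (FKab W S ∅ id a b).card := by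
      exact_mod_cast card_le_card hsub
    rw [pw, if_pos h1, div_mul_eq_mul_div, one_mul, le_div_iff₀ hw1]
    simp only [card_empty, Nat.cast_zero, sub_zero] at key
    nlinarith
  · have hne := ne_of_I2 he
    have hdj := disj_of_I2 he
    rw [mem_I2] at he
    obtain ⟨⟨h2, h3⟩, ⟨h4, h5⟩, -⟩ := he
    obtain ⟨a, b, hab, hs⟩ := two_elems h3
    obtain ⟨c, d, hcd, ht⟩ := two_elems h5
    have ha : a ∈ e.1 := by rw [hs]; simp
    have hb : b ∈ e.1 := by rw [hs]; simp
    have hc : c ∈ e.2 := by rw [ht]; simp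
    have hd : d ∈ e.2 := by rw [ht]; simp
    have key1 := one_step W S ∅ id (by simp) (by simp) (h2 ha) (h2 hb) hab (by simp) (by simp)
      (fun e' he' => ⟨(hnot a (mem_union_left _ ha) e' he').1, (hnot b (mem_union_left _ hb) e' he').1,
        (hnot a (mem_union_left _ ha) e' he').2, (hnot b (mem_union_left _ hb) e' he').2⟩)
    have key2 := one_step W S {a, b} (fun x => if x = a then b else a) (by
        intro k hk
        split_ifs
        · simp
        · simp) (by rw [← hs]; exact h2) (h4 hc) (h4 hd) hcd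
      (by rw [← hs]; exact fun h => Finset.disjoint_left.1 hdj h hc)
      (by rw [← hs]; exact fun h => Finset.disjoint_left.1 hdj h hd)
      (fun e' he' => ⟨(hnot c (mem_union_right _ hc) e' he').1,
        (hnot d (mem_union_right _ hd) e' he').1,
        (hnot c (mem_union_right _ hc) e' he').2, (hnot d (mem_union_right _ hd) e' he').2⟩)
    rw [card_pair hab] at key2
    simp only [card_empty, Nat.cast_zero, sub_zero] at key1
    have hsub : AvIn (PM W) Holds e S ⊆ FKab W S {a, b} (fun x => if x = a then b else a) c d := by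
      intro f hf
      rw [mem_AvIn] at hf
      rw [mem_FKab]
      have hfa : f a = b := holds_pair hf.1 (h2 ha) (by rw [← hs]; exact hf.2.1.1)
      refine ⟨hf.1, ?_, ?_, hf.2.2⟩
      · refine holds_pair hf.1 (h4 hc) ?_
        rw [← ht]
        exact hf.2.1.2
      · intro k hk
        rw [mem_insert, mem_singleton] at hk
        rcases hk with rfl | rfl
        · simp [hfa]
        · rw [if_neg hab.symm, ← hfa, (mem_PM.1 hf.1).1]
    have hsub2 : FK W S {a, b} (fun x => if x = a then b else a) ⊆ FKab W S ∅ id a b := by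
      intro f hf
      rw [mem_FK] at hf
      rw [mem_FKab]
      refine ⟨hf.1, ?_, by simp, hf.2.2⟩
      have := hf.2.1 a (by simp)
      rw [this]
      simp
    have hle : ((AvIn (PM W) Holds e S).card : ℝ) ≤
        (FKab W S {a, b} (fun x => if x = a then b else a) c d).card := by
      exact_mod_cast card_le_card hsub
    have hle2 : ((FK W S {a, b} (fun x => if x = a then b else a)).card : ℝ) ≤
        (FKab W S ∅ id a b).card := by
      exact_mod_cast card_le_card hsub2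
    rw [pw, if_neg hne, div_mul_eq_mul_div, one_mul, le_div_iff₀ (mul_pos hw1 hw3)]
    push_cast at key2
    have e1 : ((W.card : ℝ) - 1 - 2) = (W.card : ℝ) - 3 := by ring
    rw [e1] at key2
    have e2 : ((AvIn (PM W) Holds e S).card : ℝ) * ((W.card : ℝ) - 3) ≤
        (FKab W S ∅ id a b).card := by nlinarith
    calc ((AvIn (PM W) Holds e S).card : ℝ) * (((W.card : ℝ) - 1) * ((W.card : ℝ) - 3)) =
        ((W.card : ℝ) - 1) * (((AvIn (PM W) Holds e S).card : ℝ) * ((W.card : ℝ) - 3)) := by ring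
      _ ≤ ((W.card : ℝ) - 1) * (FKab W S ∅ id a b).card := mul_le_mul_of_nonneg_left e2 hw1.le
      _ ≤ _ := key1

/-- the number of events of the first kind through `v` -/
theorem count1 (R : V → V → Prop) (hR : ∀ x y, R x y → R y x) (W : Finset V) (v : V) (B : ℕ)
    [DecidablePred (fun y => v ≠ y ∧ ¬ R v y)]
    (hB : (W.filter (fun y => v ≠ y ∧ ¬ R v y)).card ≤ B)
    [DecidablePred (fun e : Finset V × Finset V => v ∈ e.1 ∪ e.2)] :
    ((I1 R W).filter (fun e => v ∈ e.1 ∪ e.2)).card ≤ B := by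
  classical
  refine le_trans (le_trans (card_le_card (t := (W.filter (fun y => v ≠ y ∧ ¬ R v y)).image
    (fun y => (({v, y} : Finset V), ({v, y} : Finset V)))) ?_) card_image_le) hB
  intro e he
  rw [mem_filter, mem_I1] at he
  obtain ⟨⟨h1, h2, h3, x, hx, y, hy, hxy, hbad⟩, hv⟩ := he
  rw [← h1, union_self] at hv
  have hes : e.1 = {x, y} := by
    symm
    refine eq_of_subset_of_card_le ?_ ?_
    · intro z hz
      rw [mem_insert, mem_singleton] at hz
      rcases hz with rfl | rfl <;> assumption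
    · rw [h3, card_pair hxy]
  rw [mem_image]
  rw [hes, mem_insert, mem_singleton] at hv
  rcases hv with rfl | rfl
  · refine ⟨y, mem_filter.2 ⟨h2 hy, hxy, hbad⟩, ?_⟩
    rw [← hes]
    exact Prod.ext rfl h1
  · refine ⟨x, mem_filter.2 ⟨h2 hx, hxy.symm, fun h => hbad (hR _ _ h)⟩, ?_⟩
    rw [pair_comm, ← hes]
    exact Prod.ext rfl h1

/-- the number of events of the second kind with `v` in the first pair -/
theorem count2 (H : SimpleGraph V) (R : V → V → Prop) (W : Finset V) (v : V)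
    (κ : ℕ) [DecidableRel H.Adj]
    (hκ : ∀ y ∈ W, R v y → (W.filter (fun z => H.Adj v z ∧ H.Adj y z)).card ≤ κ)
    [DecidablePred (fun e : Finset V × Finset V => v ∈ e.1)] (hv : v ∈ W) :
    ((I2 H R W).filter (fun e => v ∈ e.1)).card ≤ (W.card - 1) * κ.choose 2 := by
  classical
  have hsub : (I2 H R W).filter (fun e => v ∈ e.1) ⊆
      ((W.erase v).filter (fun y => R v y)).biUnion (fun y =>
        ((W.filter (fun z => H.Adj v z ∧ H.Adj y z)).powersetCard 2).image
          (fun t => (({v, y} : Finset V), t))) := by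
    intro e he
    rw [mem_filter, mem_I2] at he
    obtain ⟨⟨⟨h1, h2⟩, ⟨h3, h4⟩, h5, -, h6⟩, h7⟩ := he
    obtain ⟨a, b, hab, hs⟩ := two_elems h2
    have : ∃ y, y ≠ v ∧ e.1 = {v, y} := by
      rw [hs, mem_insert, mem_singleton] at h7
      rcases h7 with rfl | rfl
      · exact ⟨b, hab.symm, hs⟩
      · exact ⟨a, hab, by rw [hs, pair_comm]⟩
    obtain ⟨y, hyv, hy⟩ := this
    have hye : y ∈ e.1 := by rw [hy]; simp
    have hve : v ∈ e.1 := by rw [hy]; simp
    rw [mem_biUnion]
    refine ⟨y, ?_, ?_⟩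
    · rw [mem_filter, mem_erase]
      refine ⟨⟨hyv, h1 hye⟩, ?_⟩
      by_contra hR
      exact h5 ⟨v, hve, y, hye, hyv.symm, hR⟩
    · rw [mem_image]
      refine ⟨e.2, ?_, ?_⟩
      · rw [mem_powersetCard]
        refine ⟨?_, h4⟩
        intro z hz
        rw [mem_filter]
        exact ⟨h3 hz, h6 v hve z hz, h6 y hye z hz⟩
      · rw [← hy]
  refine (card_le_card hsub).trans (card_biUnion_le.trans ?_)
  have h1 : ∀ y ∈ (W.erase v).filter (fun y => R v y),
      (((W.filter (fun z => H.Adj v z ∧ H.Adj y z)).powersetCard 2).image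
          (fun t => (({v, y} : Finset V), t))).card ≤ κ.choose 2 := by
    intro y hy
    rw [mem_filter, mem_erase] at hy
    refine card_image_le.trans ?_
    rw [card_powersetCard]
    exact Nat.choose_le_choose 2 (hκ y hy.1.2 hy.2)
  refine (sum_le_sum h1).trans ?_
  rw [sum_const, smul_eq_mul]
  refine Nat.mul_le_mul_right _ ?_
  refine (card_le_card (filter_subset _ _)).trans ?_
  rw [card_erase_of_mem hv]

theorem count2' (H : SimpleGraph V) (R : V → V → Prop) (W : Finset V) (v : V)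
    [DecidablePred (fun e : Finset V × Finset V => v ∈ e.1)]
    [DecidablePred (fun e : Finset V × Finset V => v ∈ e.2)] :
    ((I2 H R W).filter (fun e => v ∈ e.2)).card = ((I2 H R W).filter (fun e => v ∈ e.1)).card := by
  classical
  refine card_bij (fun e _ => (e.2, e.1)) ?_ ?_ ?_
  · intro e he
    rw [mem_filter, mem_I2] at he ⊢
    obtain ⟨⟨h1, h2, h3, h4, h5⟩, h6⟩ := he
    exact ⟨⟨h2, h1, h4, h3, fun x hx y hy => (h5 y hy x hx).symm⟩, h6⟩
  · intro e _ e' _ h
    have h1 := congrArg Prod.fst h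
    have h2 := congrArg Prod.snd h
    exact Prod.ext h2 h1
  · intro e he
    rw [mem_filter, mem_I2] at he
    obtain ⟨⟨h1, h2, h3, h4, h5⟩, h6⟩ := he
    refine ⟨(e.2, e.1), ?_, rfl⟩
    rw [mem_filter, mem_I2]
    exact ⟨⟨h2, h1, h4, h3, fun x hx y hy => (h5 y hy x hx).symm⟩, h6⟩

theorem pw_nonneg (W : Finset V) (hw : 4 ≤ W.card) (e : Finset V × Finset V) : 0 ≤ pw W e := by
  have hw4 : (4 : ℝ) ≤ W.card := by exact_mod_cast hw
  have hw1 : (0 : ℝ) < (W.card : ℝ) - 1 := by linarith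
  have hw3 : (0 : ℝ) < (W.card : ℝ) - 3 := by linarith
  unfold pw
  split_ifs <;> positivity

theorem sum_pw_union (W : Finset V) (hw : 4 ≤ W.card) (S T : Finset (Finset V × Finset V)) :
    ∑ e ∈ S ∪ T, pw W e ≤ ∑ e ∈ S, pw W e + ∑ e ∈ T, pw W e := by
  rw [← sum_union_inter]
  have : 0 ≤ ∑ e ∈ S ∩ T, pw W e := sum_nonneg fun e _ => pw_nonneg W hw e
  linarith

theorem sum_pw_one (R : V → V → Prop) (W : Finset V) (hw : 4 ≤ W.card) (B : ℕ)
    (S : Finset (Finset V × Finset V)) (hS : S ⊆ I1 R W) (hc : S.card ≤ B) :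
    ∑ e ∈ S, pw W e ≤ B / ((W.card : ℝ) - 1) := by
  have hw4 : (4 : ℝ) ≤ W.card := by exact_mod_cast hw
  have hw1 : (0 : ℝ) < (W.card : ℝ) - 1 := by linarith
  have h1 : ∀ e ∈ S, pw W e = 1 / ((W.card : ℝ) - 1) := by
    intro e he
    have h2 := mem_I1.1 (hS he)
    rw [pw, if_pos h2.1]
  have h3 : ∑ e ∈ S, pw W e = S.card * (1 / ((W.card : ℝ) - 1)) := by
    rw [sum_congr rfl h1, sum_const, nsmul_eq_mul]
  rw [h3, mul_one_div]
  refine div_le_div_of_nonneg_right ?_ hw1.le
  exact_mod_cast hc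

theorem sum_pw_two (H : SimpleGraph V) (R : V → V → Prop) (W : Finset V) (hw : 4 ≤ W.card)
    (c : ℕ) (S : Finset (Finset V × Finset V)) (hS : S ⊆ I2 H R W)
    (hc : S.card ≤ (W.card - 1) * c) :
    ∑ e ∈ S, pw W e ≤ (c : ℝ) / ((W.card : ℝ) - 3) := by
  have hw4 : (4 : ℝ) ≤ W.card := by exact_mod_cast hw
  have hw1 : (0 : ℝ) < (W.card : ℝ) - 1 := by linarith
  have hw3 : (0 : ℝ) < (W.card : ℝ) - 3 := by linarith
  have h1 : ∀ e ∈ S, pw W e = 1 / (((W.card : ℝ) - 1) * ((W.card : ℝ) - 3)) := by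
    intro e he
    rw [pw, if_neg (ne_of_I2 (hS he))]
  have h3 : ∑ e ∈ S, pw W e = S.card * (1 / (((W.card : ℝ) - 1) * ((W.card : ℝ) - 3))) := by
    rw [sum_congr rfl h1, sum_const, nsmul_eq_mul]
  have h4 : ((W.card - 1 : ℕ) : ℝ) = (W.card : ℝ) - 1 := by
    rw [Nat.cast_sub (by omega)]
    simp
  have h5 : (S.card : ℝ) ≤ ((W.card : ℝ) - 1) * c := by
    rw [← h4]
    exact_mod_cast hc
  rw [h3, mul_one_div, div_le_div_iff₀ (mul_pos hw1 hw3) hw3]
  calc (S.card : ℝ) * ((W.card : ℝ) - 3) ≤ (((W.card : ℝ) - 1) * c) * ((W.card : ℝ) - 3) :=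
        mul_le_mul_of_nonneg_right h5 hw3.le
    _ = c * (((W.card : ℝ) - 1) * ((W.card : ℝ) - 3)) := by ring

/-- the total weight of the events through `v` -/
theorem weight (H : SimpleGraph V) (R : V → V → Prop) (hR : ∀ x y, R x y → R y x)
    (W : Finset V) (hw : 4 ≤ W.card) (B κ : ℕ) [DecidableRel R] [DecidableRel H.Adj]
    (hB : ∀ x ∈ W, (W.filter (fun y => x ≠ y ∧ ¬ R x y)).card ≤ B)
    (hκ : ∀ x ∈ W, ∀ y ∈ W, R x y → (W.filter (fun z => H.Adj x z ∧ H.Adj y z)).card ≤ κ)
    (v : V) (hv : v ∈ W) :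
    ∑ e ∈ (I1 R W ∪ I2 H R W).filter (fun e => v ∈ e.1 ∪ e.2), pw W e ≤
      B / ((W.card : ℝ) - 1) + κ * (κ - 1) / ((W.card : ℝ) - 3) := by
  have hsub : (I1 R W ∪ I2 H R W).filter (fun e => v ∈ e.1 ∪ e.2) ⊆
      (I1 R W).filter (fun e => v ∈ e.1 ∪ e.2) ∪
      ((I2 H R W).filter (fun e => v ∈ e.1) ∪ (I2 H R W).filter (fun e => v ∈ e.2)) := by
    intro e he
    rw [mem_filter, mem_union] at he
    rw [mem_union, mem_union, mem_filter, mem_filter, mem_filter]
    obtain ⟨h1, h2⟩ := he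
    rcases h1 with h1 | h1
    · exact Or.inl ⟨h1, h2⟩
    · rcases mem_union.1 h2 with h3 | h3
      · exact Or.inr (Or.inl ⟨h1, h3⟩)
      · exact Or.inr (Or.inr ⟨h1, h3⟩)
  have s0 := sum_le_sum_of_subset_of_nonneg hsub (fun e _ _ => pw_nonneg W hw e)
  have s1 := sum_pw_one R W hw B _ (filter_subset (fun e => v ∈ e.1 ∪ e.2) (I1 R W))
    (count1 R hR W v B (hB v hv))
  have c2 := count2 H R W v κ (fun y hy => hκ v hv y hy) hv
  have s2 := sum_pw_two H R W hw _ _ (filter_subset (fun e => v ∈ e.1) (I2 H R W)) c2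
  have c3 := count2' H R W v
  have s3 := sum_pw_two H R W hw _ _ (filter_subset (fun e => v ∈ e.2) (I2 H R W))
    (c3.le.trans c2)
  have u1 := sum_pw_union W hw ((I1 R W).filter (fun e => v ∈ e.1 ∪ e.2))
    ((I2 H R W).filter (fun e => v ∈ e.1) ∪ (I2 H R W).filter (fun e => v ∈ e.2))
  have u2 := sum_pw_union W hw ((I2 H R W).filter (fun e => v ∈ e.1))
    ((I2 H R W).filter (fun e => v ∈ e.2))
  have hch : (κ.choose 2 : ℝ) = κ * (κ - 1) / 2 := Nat.cast_choose_two ℝ κ
  have e1 : (κ : ℝ) * (κ - 1) / ((W.card : ℝ) - 3) =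
      (κ.choose 2 : ℝ) / ((W.card : ℝ) - 3) + (κ.choose 2 : ℝ) / ((W.card : ℝ) - 3) := by
    rw [hch]; ring
  rw [e1]
  linarith

/-- Conflict free perfect matchings. -/
theorem perfect (H : SimpleGraph V) (R : V → V → Prop) (hR : ∀ x y, R x y → R y x)
    (W : Finset V) (hW : Even W.card) (hw : 5 ≤ W.card) (B κ : ℕ) [DecidableRel R]
    [DecidableRel H.Adj]
    (hB : ∀ x ∈ W, (W.filter (fun y => x ≠ y ∧ ¬ R x y)).card ≤ B)
    (hκ : ∀ x ∈ W, ∀ y ∈ W, R x y → (W.filter (fun z => H.Adj x z ∧ H.Adj y z)).card ≤ κ)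
    (hlll : B / ((W.card : ℝ) - 1) + κ * (κ - 1) / ((W.card : ℝ) - 3) ≤ 1 / 16) :
    ∃ f : V → V, (∀ x, f (f x) = x) ∧ (∀ x, x ∉ W → f x = x) ∧
      (∀ x ∈ W, f x ∈ W ∧ x ≠ f x ∧ R x (f x)) ∧
      (∀ x ∈ W, ∀ y ∈ W, ¬ QQ H x (f x) y (f y)) := by
  classical
  have hw4 : (5 : ℝ) ≤ W.card := by exact_mod_cast hw
  have hw1 : (0 : ℝ) < (W.card : ℝ) - 1 := by linarith
  have hw3 : (0 : ℝ) < (W.card : ℝ) - 3 := by linarith
  have hpw : ∀ e, 0 ≤ pw W e := by
    intro e
    unfold pw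
    split_ifs <;> positivity
  obtain ⟨f₀, hf₀⟩ := dirac (fun x y : V => x ≠ y) (fun x y h => h.symm) (fun x h => h rfl) W hW
    (by
      intro x hx
      have : W.filter (fun y => x ≠ y) = W.erase x := by
        ext y; simp only [mem_filter, mem_erase]; tauto
      rw [this, card_erase_of_mem hx]
      omega)
  obtain ⟨f, hf, hav⟩ := lll (PM W) Holds (I1 R W ∪ I2 H R W)
    (fun e e' => ¬ Disjoint (e.1 ∪ e.2) (e'.1 ∪ e'.2)) (pw W)
    ⟨f₀, mem_PM.2 ⟨hf₀.1, hf₀.2.1, fun x hx h => hf₀.2.2 x hx h.symm⟩⟩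
    (fun e _ => hpw e)
    (by
      intro e _
      unfold pw
      split_ifs
      · rw [div_le_div_iff₀ hw1 (by norm_num)]
        linarith
      · rw [div_le_div_iff₀ (mul_pos hw1 hw3) (by norm_num)]
        nlinarith)
    (by
      intro e he S _ hdis
      refine lop H R W (by omega) e he S (fun e' he' => ?_)
      have := hdis e' he'
      rwa [not_not] at this)
    (by
      intro e he T hT hdis
      have hcard : (e.1 ∪ e.2).card ≤ 4 := by
        refine (card_union_le _ _).trans ?_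
        rcases mem_union.1 he with he | he
        · rw [mem_I1] at he
          rw [← he.1, he.2.2.1]
        · rw [mem_I2] at he
          omega
      have heW : ∀ v ∈ e.1 ∪ e.2, v ∈ W := by
        intro v hv
        rcases mem_union.1 he with he | he
        · rw [mem_I1] at he
          rw [← he.1, union_self] at hv
          exact he.2.1 hv
        · rw [mem_I2] at he
          rcases mem_union.1 hv with h | h
          · exact he.1.1 h
          · exact he.2.1.1 h
      have hsub : T ⊆ (e.1 ∪ e.2).biUnion (fun v =>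
          (I1 R W ∪ I2 H R W).filter (fun e' => v ∈ e'.1 ∪ e'.2)) := by
        intro e' he'
        obtain ⟨v, hv1, hv2⟩ := Finset.not_disjoint_iff.1 (hdis e' he')
        rw [mem_biUnion]
        exact ⟨v, hv1, mem_filter.2 ⟨hT he', hv2⟩⟩
      have hb : ∀ (s : Finset V) (F : V → Finset (Finset V × Finset V)),
          ∑ e ∈ s.biUnion F, pw W e ≤ ∑ v ∈ s, ∑ e ∈ F v, pw W e := by
        intro s F
        induction s using Finset.induction_on with
        | empty => simp
        | insert a s ha ih =>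
          rw [biUnion_insert, sum_insert ha]
          have := sum_union_inter (s₁ := F a) (s₂ := s.biUnion F) (f := pw W)
          have h0 : 0 ≤ ∑ e ∈ F a ∩ s.biUnion F, pw W e := sum_nonneg fun e _ => hpw e
          linarith
      refine (sum_le_sum_of_subset_of_nonneg hsub (fun e _ _ => hpw e)).trans ?_
      refine (hb _ _).trans ?_
      have h1 : ∑ v ∈ e.1 ∪ e.2, ∑ e ∈ (I1 R W ∪ I2 H R W).filter (fun e' => v ∈ e'.1 ∪ e'.2),
          pw W e ≤ ∑ _v ∈ e.1 ∪ e.2, (1 / 16 : ℝ) := by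
        refine sum_le_sum fun v hv => ?_
        exact (weight H R hR W (by omega) B κ hB hκ v (heW v hv)).trans hlll
      refine h1.trans ?_
      rw [sum_const, nsmul_eq_mul]
      have : (((e.1 ∪ e.2).card : ℕ) : ℝ) ≤ 4 := by exact_mod_cast hcard
      linarith)
  have hP := mem_PM.1 hf
  have hRf : ∀ x ∈ W, R x (f x) := by
    intro x hx
    by_contra hn
    have hne : x ≠ f x := fun h => hP.2.2 x hx h.symm
    have hI : (({x, f x} : Finset V), ({x, f x} : Finset V)) ∈ I1 R W ∪ I2 H R W := by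
      refine mem_union_left _ (mem_I1.2 ⟨rfl, ?_, card_pair hne, ?_⟩)
      · intro z hz
        simp only [mem_insert, mem_singleton] at hz
        rcases hz with rfl | rfl
        · exact hx
        · exact PM_maps hf hx
      · exact ⟨x, by simp, f x, by simp, hne, hn⟩
    refine hav _ hI ?_
    have : ∀ z ∈ ({x, f x} : Finset V), f z ∈ ({x, f x} : Finset V) := by
      intro z hz
      rw [mem_insert, mem_singleton] at hz
      rcases hz with rfl | rfl
      · simp
      · rw [hP.1]; simp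
    exact ⟨this, this⟩
  refine ⟨f, hP.1, hP.2.1, fun x hx => ⟨PM_maps hf hx, fun h => hP.2.2 x hx h.symm, hRf x hx⟩, ?_⟩
  intro x hx y hy hQ
  have hgood : ∀ x ∈ W, ¬ Bad R ({x, f x} : Finset V) := by
    rintro x hx ⟨a, ha, b, hb, hab, hn⟩
    rw [mem_insert, mem_singleton] at ha hb
    rcases ha with rfl | rfl <;> rcases hb with rfl | rfl
    · exact hab rfl
    · exact hn (hRf _ hx)
    · exact hn (hR _ _ (hRf _ hx))
    · exact hab rfl
  have hmem : ∀ x ∈ W, (({x, f x} : Finset V) ⊆ W ∧ ({x, f x} : Finset V).card = 2) := by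
    intro x hx
    refine ⟨?_, card_pair (fun h => hP.2.2 x hx h.symm)⟩
    intro z hz
    rw [mem_insert, mem_singleton] at hz
    rcases hz with rfl | rfl
    · exact hx
    · exact PM_maps hf hx
  have hself : ∀ x, ∀ z ∈ ({x, f x} : Finset V), f z ∈ ({x, f x} : Finset V) := by
    intro x z hz
    rw [mem_insert, mem_singleton] at hz
    rcases hz with rfl | rfl
    · simp
    · rw [hP.1]; simp
  have hI : (({x, f x} : Finset V), ({y, f y} : Finset V)) ∈ I1 R W ∪ I2 H R W := by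
    refine mem_union_right _ (mem_I2.2 ⟨hmem x hx, hmem y hy, hgood x hx, hgood y hy, ?_⟩)
    intro a ha b hb
    simp only [mem_insert, mem_singleton] at ha hb
    obtain ⟨q1, q2, q3, q4⟩ := hQ
    rcases ha with rfl | rfl <;> rcases hb with rfl | rfl <;> assumption
  exact hav _ hI ⟨hself x, hself y⟩

end Pool.Agent.TH446.HN
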