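import Mathlib

/-! Random graphs: graphs in which every vertex has few non-neighbours and which have no large
family of pairwise adjacent pairs. -/

set_option autoImplicit false

namespace Pool.Agent.TH446.HN.Sharp

open Finset

section Count

variable {E : Type*} [Fintype E] [DecidableEq E] (q : ℕ)

/-- the number of functions that vanish on `F` -/
theorem zero_count (F : Finset E) :
    ((univ.filter (fun ω : E → Fin (q + 1) => ∀ e ∈ F, ω e = 0)).card : ℝ) * ((q : ℝ) + 1) ^ F.card =
      ((q : ℝ) + 1) ^ Fintype.card E := by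
  have h1 : univ.filter (fun ω : E → Fin (q + 1) => ∀ e ∈ F, ω e = 0) =
      Fintype.piFinset (fun e => if e ∈ F then ({0} : Finset (Fin (q + 1))) else univ) := by
    ext ω
    rw [mem_filter, Fintype.mem_piFinset]
    constructor
    · rintro ⟨-, h⟩ e
      by_cases he : e ∈ F
      · rw [if_pos he, mem_singleton]; exact h e he
      · rw [if_neg he]; exact mem_univ _
    · intro h
      refine ⟨mem_univ _, fun e he => ?_⟩
      have := h e
      rw [if_pos he, mem_singleton] at this
      exact this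
  have h2 : (Fintype.piFinset (fun e => if e ∈ F then ({0} : Finset (Fin (q + 1))) else univ)).card =
      (q + 1) ^ (univ \ F).card := by
    rw [Fintype.card_piFinset]
    have : ∀ e : E, (if e ∈ F then ({0} : Finset (Fin (q + 1))) else univ).card =
        if e ∈ F then 1 else q + 1 := by
      intro e
      split_ifs
      · simp
      · simp
    rw [prod_congr rfl (fun e _ => this e), prod_ite]
    simp only [prod_const_one, one_mul, prod_const]
    congr 2
    ext e
    simp
  rw [h1, h2]
  have h3 : (univ \ F).card + F.card = Fintype.card E := by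
    rw [card_sdiff_add_card_eq_card (subset_univ F), card_univ]
  push_cast
  rw [← pow_add, h3]

/-- The property `P` does not depend on the values on `B`. -/
def Indep (P : (E → Fin (q + 1)) → Prop) (B : Finset E) : Prop :=
  ∀ ω ω' : E → Fin (q + 1), (∀ e, e ∉ B → ω e = ω' e) → (P ω → P ω')

theorem block (P : (E → Fin (q + 1)) → Prop) [DecidablePred P] (B : Finset E)
    (hP : Indep q P B) :
    ((univ.filter P).card : ℝ) ≤ ((q : ℝ) + 1) ^ B.card *
      (univ.filter (fun ω => P ω ∧ ∀ e ∈ B, ω e = 0)).card := by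
  have h : (univ.filter P).card ≤
      ((univ : Finset (B → Fin (q + 1))) ×ˢ univ.filter (fun ω => P ω ∧ ∀ e ∈ B, ω e = 0)).card := by
    refine card_le_card_of_injOn (fun ω => (fun e => ω e.1, fun e => if e ∈ B then 0 else ω e))
      ?_ ?_
    · intro ω hω
      rw [mem_coe, mem_filter] at hω
      rw [mem_coe, mem_product, mem_filter]
      refine ⟨mem_univ _, mem_univ _, ?_, ?_⟩
      · refine hP ω _ (fun e he => ?_) hω.2
        simp [he]
      · intro e he
        simp [he]
    · intro ω _ ω' _ h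
      have h1 := congrArg Prod.fst h
      have h2 := congrArg Prod.snd h
      funext e
      by_cases he : e ∈ B
      · exact congrFun h1 ⟨e, he⟩
      · have := congrFun h2 e
        simpa [he] using this
  rw [card_product, card_univ, Fintype.card_fun, Fintype.card_fin, Fintype.card_coe] at h
  exact_mod_cast h

/-- the number of functions that do not vanish identically on any of some disjoint blocks -/
theorem avoid_count {ι : Type*} [DecidableEq ι] (S : Finset ι) (B : ι → Finset E)
    (hdis : ∀ i ∈ S, ∀ j ∈ S, i ≠ j → Disjoint (B i) (B j)) (h4 : ∀ i ∈ S, (B i).card ≤ 4) :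
    ((univ.filter (fun ω : E → Fin (q + 1) => ∀ i ∈ S, ∃ e ∈ B i, ω e ≠ 0)).card : ℝ) ≤
      ((q : ℝ) + 1) ^ Fintype.card E * (1 - 1 / ((q : ℝ) + 1) ^ 4) ^ S.card := by
  have hq : (0 : ℝ) < (q : ℝ) + 1 := by positivity
  have hq1 : (1 : ℝ) ≤ (q : ℝ) + 1 := by
    have : (0 : ℝ) ≤ q := by positivity
    linarith
  induction S using Finset.induction_on with
  | empty =>
    simp only [notMem_empty, false_imp_iff, implies_true, filter_true, card_univ,
      Fintype.card_fun, Fintype.card_fin, card_empty, pow_zero, mul_one]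
    push_cast
    rfl
  | insert i S hi ih =>
    have ih' := ih (fun a ha b hb => hdis a (mem_insert_of_mem ha) b (mem_insert_of_mem hb))
      (fun a ha => h4 a (mem_insert_of_mem ha))
    set P : (E → Fin (q + 1)) → Prop := fun ω => ∀ i ∈ S, ∃ e ∈ B i, ω e ≠ 0 with hPdef
    have hind : Indep q P (B i) := by
      intro ω ω' hoff h j hj
      obtain ⟨e, he, hne⟩ := h j hj
      refine ⟨e, he, ?_⟩
      rw [← hoff e]
      · exact hne
      · intro hei
        have hij : i ≠ j := by rintro rfl; exact hi hj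
        exact Finset.disjoint_left.1 (hdis i (mem_insert_self _ _) j (mem_insert_of_mem hj) hij)
          hei he
    have hb := block q P (B i) hind
    have hsplit : ((univ.filter P).card : ℝ) =
        (univ.filter (fun ω : E → Fin (q + 1) => ∀ j ∈ insert i S, ∃ e ∈ B j, ω e ≠ 0)).card +
        (univ.filter (fun ω => P ω ∧ ∀ e ∈ B i, ω e = 0)).card := by
      have h1 : univ.filter P =
          univ.filter (fun ω : E → Fin (q + 1) => ∀ j ∈ insert i S, ∃ e ∈ B j, ω e ≠ 0) ∪
          univ.filter (fun ω => P ω ∧ ∀ e ∈ B i, ω e = 0) := by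
        ext ω
        rw [mem_union, mem_filter, mem_filter, mem_filter]
        constructor
        · rintro ⟨-, h⟩
          by_cases hz : ∀ e ∈ B i, ω e = 0
          · exact Or.inr ⟨mem_univ _, h, hz⟩
          · push Not at hz
            refine Or.inl ⟨mem_univ _, fun j hj => ?_⟩
            rcases mem_insert.1 hj with rfl | hj
            · exact hz
            · exact h j hj
        · rintro (⟨-, h⟩ | ⟨-, h, -⟩)
          · exact ⟨mem_univ _, fun j hj => h j (mem_insert_of_mem hj)⟩
          · exact ⟨mem_univ _, h⟩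
      have h2 : Disjoint
          (univ.filter (fun ω : E → Fin (q + 1) => ∀ j ∈ insert i S, ∃ e ∈ B j, ω e ≠ 0))
          (univ.filter (fun ω => P ω ∧ ∀ e ∈ B i, ω e = 0)) := by
        rw [Finset.disjoint_left]
        intro ω h1 h2
        rw [mem_filter] at h1 h2
        obtain ⟨e, he, hne⟩ := h1.2 i (mem_insert_self _ _)
        exact hne (h2.2.2 e he)
      rw [h1, card_union_of_disjoint h2]
      push_cast
      rfl
    have h5 : ((q : ℝ) + 1) ^ (B i).card ≤ ((q : ℝ) + 1) ^ 4 :=
      pow_le_pow_right₀ hq1 (h4 i (mem_insert_self _ _))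
    set Z : ℝ := ((univ.filter (fun ω => P ω ∧ ∀ e ∈ B i, ω e = 0)).card : ℝ) with hZ
    set N : ℝ := ((univ.filter P).card : ℝ) with hN
    have hZ0 : 0 ≤ Z := by positivity
    have h6 : N ≤ ((q : ℝ) + 1) ^ 4 * Z := hb.trans (mul_le_mul_of_nonneg_right h5 hZ0)
    have h7 : N * (1 / ((q : ℝ) + 1) ^ 4) ≤ Z := by
      rw [mul_one_div, div_le_iff₀ (by positivity)]
      linarith
    have h8 : (0 : ℝ) ≤ 1 - 1 / ((q : ℝ) + 1) ^ 4 := by
      have : 1 / ((q : ℝ) + 1) ^ 4 ≤ 1 := by
        rw [div_le_one (by positivity)]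
        exact one_le_pow₀ hq1
      linarith
    rw [card_insert_of_notMem hi, pow_succ]
    have h9 : ((univ.filter (fun ω : E → Fin (q + 1) => ∀ j ∈ insert i S, ∃ e ∈ B j,
        ω e ≠ 0)).card : ℝ) ≤ N * (1 - 1 / ((q : ℝ) + 1) ^ 4) := by
      have : N * (1 - 1 / ((q : ℝ) + 1) ^ 4) = N - N * (1 / ((q : ℝ) + 1) ^ 4) := by ring
      rw [this]
      linarith
    refine h9.trans ?_
    calc N * (1 - 1 / ((q : ℝ) + 1) ^ 4) ≤
        (((q : ℝ) + 1) ^ Fintype.card E * (1 - 1 / ((q : ℝ) + 1) ^ 4) ^ S.card) *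
          (1 - 1 / ((q : ℝ) + 1) ^ 4) := mul_le_mul_of_nonneg_right ih' h8
      _ = _ := by ring

end Count

section Graph

variable (n q t k : ℕ)

/-- the sample space -/
abbrev Om := Sym2 (Fin n) → Fin (q + 1)

/-- families of `t` pairs -/
abbrev Fam := Fin t → Bool → Fin n

/-- the members of the family are disjoint -/
def Dis (c : Fam n t) : Prop := ∀ i j, i ≠ j → ∀ u v, c i u ≠ c j v

/-- the edges between two members -/
def Bl (c : Fam n t) (p : Fin t × Fin t) : Finset (Sym2 (Fin n)) :=
  (univ : Finset (Bool × Bool)).image (fun uv => s(c p.1 uv.1, c p.2 uv.2))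

theorem Bl_card (c : Fam n t) (p : Fin t × Fin t) : (Bl n t c p).card ≤ 4 := by
  refine card_image_le.trans ?_
  simp

theorem Bl_disj (c : Fam n t) (hc : Dis n t c) (p p' : Fin t × Fin t) (hp : p.1 < p.2)
    (hp' : p'.1 < p'.2) (hne : p ≠ p') : Disjoint (Bl n t c p) (Bl n t c p') := by
  rw [Finset.disjoint_left]
  intro e he he'
  simp only [Bl, mem_image, mem_univ, true_and] at he he'
  obtain ⟨⟨u, v⟩, rfl⟩ := he
  obtain ⟨⟨u', v'⟩, h⟩ := he'
  simp only [Sym2.eq_iff] at h
  rcases h with ⟨h1, h2⟩ | ⟨h1, h2⟩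
  · have e1 : p'.1 = p.1 := by
      by_contra h'
      exact hc _ _ h' _ _ h1
    have e2 : p'.2 = p.2 := by
      by_contra h'
      exact hc _ _ h' _ _ h2
    exact hne (Prod.ext e1.symm e2.symm)
  · have e1 : p'.1 = p.2 := by
      by_contra h'
      exact hc _ _ h' _ _ h1
    have e2 : p'.2 = p.1 := by
      by_contra h'
      exact hc _ _ h' _ _ h2
    rw [e1, e2] at hp'
    exact lt_asymm hp hp'

/-- index pairs -/
def Ix : Finset (Fin t × Fin t) := univ.filter (fun p => p.1 < p.2)

theorem Ix_card : (Ix t).card = t.choose 2 := by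
  have h := Finset.card_univ (α := Fin t × Fin t)
  rw [Fintype.card_prod, Fintype.card_fin] at h
  have h1 : (univ : Finset (Fin t × Fin t)) =
      (Ix t ∪ univ.filter (fun p : Fin t × Fin t => p.2 < p.1)) ∪
        univ.filter (fun p : Fin t × Fin t => p.1 = p.2) := by
    ext p
    simp only [Ix, mem_union, mem_filter, mem_univ, true_and, true_iff]
    rcases lt_trichotomy p.1 p.2 with h | h | h
    · exact Or.inl (Or.inl h)
    · exact Or.inr h
    · exact Or.inl (Or.inr h)
  have h2 : (univ.filter (fun p : Fin t × Fin t => p.2 < p.1)).card = (Ix t).card := by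
    refine card_bij (fun p _ => (p.2, p.1)) ?_ ?_ ?_
    · intro p hp
      simpa [Ix] using hp
    · intro p _ p' _ h
      exact Prod.ext (congrArg Prod.snd h) (congrArg Prod.fst h)
    · intro p hp
      exact ⟨(p.2, p.1), by simpa [Ix] using hp, rfl⟩
  have h3 : (univ.filter (fun p : Fin t × Fin t => p.1 = p.2)).card = t := by
    have : univ.filter (fun p : Fin t × Fin t => p.1 = p.2) =
        (univ : Finset (Fin t)).image (fun i => (i, i)) := by
      ext ⟨a, b⟩
      simp only [mem_filter, mem_univ, true_and, mem_image, Prod.mk.injEq]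
      constructor
      · intro h; exact ⟨a, rfl, h⟩
      · rintro ⟨i, rfl, rfl⟩; rfl
    rw [this, card_image_of_injective _ (fun a b h => (Prod.mk.inj h).1), card_univ,
      Fintype.card_fin]
  rw [h1, card_union_of_disjoint, card_union_of_disjoint, h2, h3] at h
  · rw [Nat.choose_two_right]
    have h4 : t * (t - 1) + t = t * t := by
      cases t with
      | zero => rfl
      | succ m => simp; ring
    omega
  · rw [Finset.disjoint_left]
    intro p hp hp'
    simp only [Ix, mem_filter, mem_univ, true_and] at hp hp'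
    exact lt_asymm hp hp'
  · rw [Finset.disjoint_left]
    intro p hp hp'
    simp only [Ix, mem_union, mem_filter, mem_univ, true_and] at hp hp'
    rcases hp with hp | hp
    · exact hp.ne hp'
    · exact hp.ne hp'.symm

/-- Existence of a good sample point. -/
theorem exists_good (h : (n : ℝ) * n.choose k / ((q : ℝ) + 1) ^ k +
      ((n : ℝ) ^ 2) ^ t * (1 - 1 / ((q : ℝ) + 1) ^ 4) ^ (t.choose 2) < 1) :
    ∃ ω : Om n q,
      (∀ (v : Fin n) (T : Finset (Fin n)), v ∉ T → T.card = k → ∃ u ∈ T, ω s(v, u) ≠ 0) ∧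
      (∀ c : Fam n t, Dis n t c → ∃ p ∈ Ix t, ∀ e ∈ Bl n t c p, ω e = 0) := by
  classical
  by_contra hcon
  push Not at hcon
  set M : ℝ := ((q : ℝ) + 1) ^ Fintype.card (Sym2 (Fin n)) with hM
  have hM0 : 0 < M := by positivity
  have hq : (0 : ℝ) < (q : ℝ) + 1 := by positivity
  -- first kind
  set F : Fin n × Finset (Fin n) → Finset (Sym2 (Fin n)) := fun vT => vT.2.image (fun u => s(vT.1, u))
    with hF
  set I : Finset (Fin n × Finset (Fin n)) :=
    ((univ : Finset (Fin n)) ×ˢ (univ : Finset (Fin n)).powersetCard k) with hI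
  set J : Finset (Fam n t) := univ.filter (fun c => Dis n t c) with hJ
  have hcov : (univ : Finset (Om n q)) ⊆
      I.biUnion (fun vT => univ.filter (fun ω : Om n q => ∀ e ∈ F vT, ω e = 0)) ∪
      J.biUnion (fun c => univ.filter (fun ω : Om n q => ∀ p ∈ Ix t, ∃ e ∈ Bl n t c p, ω e ≠ 0)) := by
    intro ω _
    rw [mem_union, mem_biUnion, mem_biUnion]
    by_cases hω : ∀ (v : Fin n) (T : Finset (Fin n)), v ∉ T → T.card = k → ∃ u ∈ T, ω s(v, u) ≠ 0
    · right
      obtain ⟨c, hc, h'⟩ := hcon ω hω
      exact ⟨c, by rw [hJ, mem_filter]; exact ⟨mem_univ _, hc⟩,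
        by rw [mem_filter]; exact ⟨mem_univ _, h'⟩⟩
    · left
      push Not at hω
      obtain ⟨v, T, _, hT, h'⟩ := hω
      refine ⟨(v, T), ?_, ?_⟩
      · rw [hI, mem_product, mem_powersetCard]
        exact ⟨mem_univ _, subset_univ _, hT⟩
      · rw [mem_filter]
        refine ⟨mem_univ _, fun e he => ?_⟩
        simp only [hF, mem_image] at he
        obtain ⟨u, hu, rfl⟩ := he
        exact h' u hu
  have hc1 : ∀ vT ∈ I, ((univ.filter (fun ω : Om n q => ∀ e ∈ F vT, ω e = 0)).card : ℝ) ≤
      M / ((q : ℝ) + 1) ^ k := by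
    intro vT hvT
    rw [hI, mem_product, mem_powersetCard] at hvT
    have hz := zero_count q (F vT)
    have hcardF : (F vT).card = k := by
      rw [hF]
      simp only
      rw [card_image_of_injOn, hvT.2.2]
      intro u _ u' _ h'
      simp only [Sym2.eq_iff] at h'
      rcases h' with ⟨_, h1⟩ | ⟨h1, h2⟩
      · exact h1
      · exact h2.trans h1
    rw [hcardF] at hz
    rw [le_div_iff₀ (by positivity)]
    exact hz.le
  have hc2 : ∀ c ∈ J, ((univ.filter (fun ω : Om n q => ∀ p ∈ Ix t, ∃ e ∈ Bl n t c p,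
      ω e ≠ 0)).card : ℝ) ≤ M * (1 - 1 / ((q : ℝ) + 1) ^ 4) ^ (t.choose 2) := by
    intro c hc
    rw [hJ, mem_filter] at hc
    rw [← Ix_card t]
    have hdj : ∀ p ∈ Ix t, ∀ p' ∈ Ix t, p ≠ p' → Disjoint (Bl n t c p) (Bl n t c p') := by
      intro p hp p' hp' hne
      rw [Ix, mem_filter] at hp hp'
      exact Bl_disj n t c hc.2 p p' hp.2 hp'.2 hne
    refine le_trans (le_of_eq ?_) (avoid_count q (Ix t) (Bl n t c) hdj (fun p _ => Bl_card n t c p))
    congr
  have hq1 : (0 : ℝ) ≤ 1 - 1 / ((q : ℝ) + 1) ^ 4 := by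
    have : 1 / ((q : ℝ) + 1) ^ 4 ≤ 1 := by
      rw [div_le_one (by positivity)]
      refine one_le_pow₀ ?_
      have : (0 : ℝ) ≤ q := by positivity
      linarith
    linarith
  have htot : M ≤ (n : ℝ) * n.choose k * (M / ((q : ℝ) + 1) ^ k) +
      ((n : ℝ) ^ 2) ^ t * (M * (1 - 1 / ((q : ℝ) + 1) ^ 4) ^ (t.choose 2)) := by
    have hΩ : ((univ : Finset (Om n q)).card : ℝ) = M := by
      rw [card_univ, Fintype.card_fun, Fintype.card_fin]
      push_cast
      rfl
    rw [← hΩ]
    have h1 := card_le_card hcov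
    have h2 := h1.trans (card_union_le _ _)
    have h3 : ((univ : Finset (Om n q)).card : ℝ) ≤
        ((I.biUnion (fun vT => univ.filter (fun ω : Om n q => ∀ e ∈ F vT, ω e = 0))).card : ℝ) +
        ((J.biUnion (fun c => univ.filter (fun ω : Om n q => ∀ p ∈ Ix t,
          ∃ e ∈ Bl n t c p, ω e ≠ 0))).card : ℝ) := by
      exact_mod_cast h2
    refine h3.trans (add_le_add ?_ ?_)
    · have h4 : ((I.biUnion (fun vT => univ.filter (fun ω : Om n q => ∀ e ∈ F vT,
          ω e = 0))).card : ℝ) ≤ ∑ vT ∈ I, ((univ.filter (fun ω : Om n q => ∀ e ∈ F vT,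
          ω e = 0)).card : ℝ) := by
        exact_mod_cast card_biUnion_le
      refine h4.trans ((sum_le_sum hc1).trans ?_)
      rw [sum_const, nsmul_eq_mul, hI, card_product, card_univ, Fintype.card_fin,
        card_powersetCard, card_univ, Fintype.card_fin, hΩ]
      push_cast
      rfl
    · have h4 : ((J.biUnion (fun c => univ.filter (fun ω : Om n q => ∀ p ∈ Ix t,
          ∃ e ∈ Bl n t c p, ω e ≠ 0))).card : ℝ) ≤ ∑ c ∈ J, ((univ.filter (fun ω : Om n q =>
          ∀ p ∈ Ix t, ∃ e ∈ Bl n t c p, ω e ≠ 0)).card : ℝ) := by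
        exact_mod_cast card_biUnion_le
      refine h4.trans ((sum_le_sum hc2).trans ?_)
      rw [sum_const, nsmul_eq_mul, hΩ]
      refine mul_le_mul_of_nonneg_right ?_ (by positivity)
      have h5 : J.card ≤ (n ^ 2) ^ t := by
        refine (card_le_univ J).trans ?_
        rw [Fintype.card_fun, Fintype.card_fun, Fintype.card_fin, Fintype.card_bool,
          Fintype.card_fin]
      exact_mod_cast h5
  have hfin : M ≤ M * ((n : ℝ) * n.choose k / ((q : ℝ) + 1) ^ k +
      ((n : ℝ) ^ 2) ^ t * (1 - 1 / ((q : ℝ) + 1) ^ 4) ^ (t.choose 2)) := by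
    calc M ≤ _ := htot
      _ = _ := by ring
  nlinarith

end Graph

end Pool.Agent.TH446.HN.Sharp
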